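import Pool.Agent.Y762.EG.FinA

/-!
The local factors at the places of good reduction outside the modulus, and the Euler product over the
places not dividing a given integer.
-/

set_option autoImplicit false
set_option maxHeartbeats 4000000

open NumberField IsDedekindDomain Complex
open H385 (ZI RQ im1 chiZ phiQ nrm)
open Pool.Agent.H921R2.TatePole (below nm nm_eq two_le_nm)
open Pool.Agent.Y762.HK (PrimData)
open Pool.Agent.W164.RC (two2 IsRayClassField tr tr_poss Poss places_finite order_mul_ne)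
open Pool.Agent.W354.HW (locE)

namespace Pool.Agent.Y762.EG

/-- the roots of the characteristic polynomial of Frobenius have absolute value `√n` -/
theorem root_norm {a : ℤ} {n : ℕ} (hn : 1 ≤ n) (ha : a ^ 2 ≤ 4 * (n : ℤ)) {α β : ℂ}
    (h1 : α + β = (a : ℂ)) (h2 : α * β = (n : ℂ)) : ‖α‖ ^ 2 = n ∧ ‖β‖ ^ 2 = n := by
  have ha' : (a : ℝ) ^ 2 ≤ 4 * (n : ℝ) := by exact_mod_cast ha
  have key : ∀ α β : ℂ, α + β = (a : ℂ) → α * β = (n : ℂ) → ‖α‖ ^ 2 = n := by
    intro α β h1 h2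
    have h3 : α * α - (a : ℂ) * α + (n : ℂ) = 0 := by
      rw [← h1, ← h2]
      ring
    have hre := congrArg Complex.re h3
    have him := congrArg Complex.im h3
    simp only [Complex.add_re, Complex.sub_re, Complex.mul_re, Complex.intCast_re,
      Complex.intCast_im, Complex.natCast_re, Complex.zero_re, zero_mul, sub_zero] at hre
    simp only [Complex.add_im, Complex.sub_im, Complex.mul_im, Complex.intCast_re,
      Complex.intCast_im, Complex.natCast_im, Complex.zero_im, zero_mul, add_zero] at him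
    rw [← Complex.normSq_eq_norm_sq, Complex.normSq_apply]
    have h4 : α.im * (2 * α.re - a) = 0 := by linarith
    rcases mul_eq_zero.1 h4 with h5 | h5
    · rw [h5] at hre ⊢
      have h6 : (2 * α.re - a) ^ 2 = (a : ℝ) ^ 2 - 4 * n := by nlinarith
      have h7 : (2 * α.re - a) ^ 2 = 0 := le_antisymm (by linarith) (sq_nonneg _)
      have h8 : 2 * α.re - a = 0 := by
        simpa using h7
      nlinarith
    · have h6 : (a : ℝ) = 2 * α.re := by linarith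
      rw [h6] at hre
      linear_combination -hre
  exact ⟨key α β h1 h2, key β α (by rw [add_comm]; exact h1) (by rw [mul_comm]; exact h2)⟩

theorem locE_diff (g i : ℕ) (α β : ℂ) {n : ℕ} (hn : 2 ≤ n) :
    Differentiable ℂ (locE g i α β n) := by
  unfold locE
  refine Differentiable.fun_finsetProd fun a _ => Differentiable.pow ?_ _
  refine (differentiable_const _).sub ((differentiable_const _).mul ?_)
  have h0 : (n : ℂ) ≠ 0 := by
    have : n ≠ 0 := by omega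
    exact_mod_cast this
  exact differentiable_id.neg.const_cpow (Or.inl h0)

theorem locE_ne (g i : ℕ) {α β : ℂ} {n : ℕ} (hn : 2 ≤ n) (h1 : ‖α‖ ^ 2 = n) (h2 : ‖β‖ ^ 2 = n)
    {s : ℂ} (hs : (i : ℝ) / 2 < s.re) : locE g i α β n s ≠ 0 := by
  have hn1 : (1 : ℝ) < n := by exact_mod_cast hn
  have hn0 : (0 : ℝ) < n := by linarith
  have e1 : ‖α‖ = (n : ℝ) ^ (1 / 2 : ℝ) := by
    rw [← Real.sqrt_eq_rpow, eq_comm, Real.sqrt_eq_iff_mul_self_eq hn0.le (norm_nonneg _), ← sq, h1]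
  have e2 : ‖β‖ = (n : ℝ) ^ (1 / 2 : ℝ) := by
    rw [← Real.sqrt_eq_rpow, eq_comm, Real.sqrt_eq_iff_mul_self_eq hn0.le (norm_nonneg _), ← sq, h2]
  unfold locE
  rw [Finset.prod_ne_zero_iff]
  intro a ha
  rw [Finset.mem_range] at ha
  refine pow_ne_zero _ ?_
  intro h
  have h3 : α ^ a * β ^ (i - a) * (n : ℂ) ^ (-s) = 1 := (sub_eq_zero.1 h).symm
  have h4 := congrArg norm h3
  rw [norm_one, norm_mul, norm_mul, norm_pow, norm_pow, e1, e2, ← pow_add,
    show a + (i - a) = i by omega, Complex.norm_natCast_cpow_of_pos (by omega), Complex.neg_re,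
    ← Real.rpow_natCast, ← Real.rpow_mul hn0.le, ← Real.rpow_add hn0] at h4
  have h5 : (n : ℝ) ^ (1 / 2 * (i : ℝ) + -s.re) < 1 :=
    Real.rpow_lt_one_of_one_lt_of_neg hn1 (by linarith)
  linarith

section
variable {K : Type} [Field K] [NumberField K]

/-- the roots exist -/
theorem exists_roots (v : HeightOneSpectrum (𝓞 K)) : ∃ x : ℂ × ℂ,
    x.1 + x.2 = ((tr v : ℤ) : ℂ) ∧ x.1 * x.2 = (((Ideal.absNorm v.asIdeal : ℕ)) : ℂ) := by
  set a : ℂ := ((tr v : ℤ) : ℂ)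
  set n : ℂ := (((Ideal.absNorm v.asIdeal : ℕ)) : ℂ)
  obtain ⟨d, hd⟩ := IsAlgClosed.exists_pow_nat_eq (a ^ 2 - 4 * n) (show 0 < 2 by norm_num)
  refine ⟨((a + d) / 2, (a - d) / 2), by ring, ?_⟩
  have : (a + d) / 2 * ((a - d) / 2) = (a ^ 2 - d ^ 2) / 4 := by ring
  show (a + d) / 2 * ((a - d) / 2) = n
  rw [this, hd]
  ring

/-- chosen roots -/
noncomputable def rt (v : HeightOneSpectrum (𝓞 K)) : ℂ × ℂ := (exists_roots v).choose

theorem rt_spec (v : HeightOneSpectrum (𝓞 K)) : (rt v).1 + (rt v).2 = ((tr v : ℤ) : ℂ) ∧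
    (rt v).1 * (rt v).2 = (((Ideal.absNorm v.asIdeal : ℕ)) : ℂ) := (exists_roots v).choose_spec

theorem rt_norm (v : HeightOneSpectrum (𝓞 K)) (hv : (below v : ℕ) ≠ 2) :
    ‖(rt v).1‖ ^ 2 = (Ideal.absNorm v.asIdeal : ℕ) ∧
      ‖(rt v).2‖ ^ 2 = (Ideal.absNorm v.asIdeal : ℕ) := by
  obtain ⟨h1, h2⟩ := rt_spec v
  have h3 := tr_poss v hv
  have h4 : (tr v) ^ 2 ≤ 4 * ((Ideal.absNorm v.asIdeal : ℕ) : ℤ) := by
    rcases h3 with ⟨-, h⟩ | ⟨h, -⟩
    · exact h
    · exact absurd h one_ne_zero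
  exact root_norm ((two_le_nm v).trans' one_le_two) h4 h1 h2

/-- the places dividing `N` but not `q` -/
noncomputable def SP (q : ZI) (ι : ZI →+* 𝓞 K) (N : ℕ) (hN : N ≠ 0) :
    Finset (HeightOneSpectrum (𝓞 K)) :=
  ((places_finite (K := K) (x := (N : 𝓞 K)) (by exact_mod_cast hN)).subset
    (t := {v | ι q ∉ v.asIdeal ∧ (N : 𝓞 K) ∈ v.asIdeal}) (fun _ hv => hv.2)).toFinset

theorem mem_SP (q : ZI) (ι : ZI →+* 𝓞 K) (N : ℕ) (hN : N ≠ 0) (v : HeightOneSpectrum (𝓞 K)) :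
    v ∈ SP q ι N hN ↔ ι q ∉ v.asIdeal ∧ (N : 𝓞 K) ∈ v.asIdeal := by
  unfold SP
  rw [Set.Finite.mem_toFinset]
  rfl

/-- the finite product of local polynomials -/
noncomputable def GP (q : ZI) (ι : ZI →+* 𝓞 K) (N : ℕ) (hN : N ≠ 0) (g i : ℕ) (s : ℂ) : ℂ :=
  ∏ v ∈ SP q ι N hN, locE g i (rt v).1 (rt v).2 (Ideal.absNorm v.asIdeal) s

theorem GP_diff (q : ZI) (ι : ZI →+* 𝓞 K) (N : ℕ) (hN : N ≠ 0) (g i : ℕ) :
    Differentiable ℂ (GP q ι N hN g i) := by
  unfold GP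
  exact Differentiable.fun_finsetProd fun v _ => locE_diff g i _ _ (two_le_nm v)

theorem GP_ne {q : ZI} (h2 : two2 ∣ q) (ι : ZI →+* 𝓞 K) (N : ℕ) (hN : N ≠ 0) (g i : ℕ) {s : ℂ}
    (hs : (i : ℝ) / 2 < s.re) : GP q ι N hN g i s ≠ 0 := by
  unfold GP
  rw [Finset.prod_ne_zero_iff]
  intro v hv
  rw [mem_SP] at hv
  obtain ⟨h3, h4⟩ := rt_norm v (fun h => hv.1 (two_mem h2 v h))
  exact locE_ne g i (two_le_nm v) h3 h4 hs

/-- the Euler product over the places not dividing `N` -/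
theorem hasProd_N (cd : (q : ZI) → MulChar (RQ q) ℂ → ZI)
    (pr : (q : ZI) → MulChar (RQ q) ℂ → (ZI →* ℂ))
    (hprim : ∀ q : ZI, q ≠ 0 → ∀ χ, PrimData q χ (cd q χ) (pr q χ))
    {q : ZI} {ι : ZI →+* 𝓞 K} {art : (RQ q)ˣ →* (𝓞 K ≃+* 𝓞 K)}
    (hq : q ≠ 0) (h2 : two2 ∣ q) (H : IsRayClassField q K ι art) (N : ℕ) (hN : N ≠ 0)
    (hqN : ∀ v : HeightOneSpectrum (𝓞 K), ι q ∈ v.asIdeal → (N : 𝓞 K) ∈ v.asIdeal)
    (α β : HeightOneSpectrum (𝓞 K) → ℂ)
    (hR : ∀ v : HeightOneSpectrum (𝓞 K), (N : 𝓞 K) ∉ v.asIdeal → α v + β v = ((tr v : ℤ) : ℂ) ∧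
      α v * β v = (((Ideal.absNorm v.asIdeal : ℕ)) : ℂ))
    (g m : ℕ) {s : ℂ} (hs : 1 + ((2 * m + 1 : ℕ) : ℝ) / 2 < s.re) :
    HasProd (fun v : {v : HeightOneSpectrum (𝓞 K) // (N : 𝓞 K) ∉ v.asIdeal} =>
      (locE g (2 * m + 1) (α v) (β v) (Ideal.absNorm v.1.asIdeal) s)⁻¹)
      (LG pr q g m (s - ((2 * m + 1 : ℕ) : ℂ) / 2) * GP q ι N hN g (2 * m + 1) s) := by
  classical
  set α' : HeightOneSpectrum (𝓞 K) → ℂ := fun v => if (N : 𝓞 K) ∈ v.asIdeal then (rt v).1 else α v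
    with hα'
  set β' : HeightOneSpectrum (𝓞 K) → ℂ := fun v => if (N : 𝓞 K) ∈ v.asIdeal then (rt v).2 else β v
    with hβ'
  have hR' : Roots q ι α' β' := by
    intro v _
    rw [hα', hβ']
    by_cases h : (N : 𝓞 K) ∈ v.asIdeal
    · simp only [if_pos h]
      exact rt_spec v
    · simp only [if_neg h]
      exact hR v h
  have h1 := hasProd_LG cd pr hprim hq h2 H α' β' hR' g m hs
  have hs' : ((2 * m + 1 : ℕ) : ℝ) / 2 < s.re := by linarith
  have h3 : HasProd (fun v : HeightOneSpectrum (𝓞 K) =>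
      if v ∈ SP q ι N hN then locE g (2 * m + 1) (rt v).1 (rt v).2 (Ideal.absNorm v.asIdeal) s
      else 1) (GP q ι N hN g (2 * m + 1) s) := by
    have h4 : GP q ι N hN g (2 * m + 1) s = ∏ v ∈ SP q ι N hN, (if v ∈ SP q ι N hN then
        locE g (2 * m + 1) (rt v).1 (rt v).2 (Ideal.absNorm v.asIdeal) s else 1) := by
      unfold GP
      exact Finset.prod_congr rfl fun v hv => by rw [if_pos hv]
    rw [h4]
    apply hasProd_prod_of_ne_finset_one
    intro v hv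
    rw [if_neg hv]
  have h5 := h1.mul h3
  have h6 : (fun v : HeightOneSpectrum (𝓞 K) => (if ι q ∈ v.asIdeal then (1 : ℂ)
      else (locE g (2 * m + 1) (α' v) (β' v) (Ideal.absNorm v.asIdeal) s)⁻¹) *
      (if v ∈ SP q ι N hN then locE g (2 * m + 1) (rt v).1 (rt v).2 (Ideal.absNorm v.asIdeal) s
      else 1)) = Set.mulIndicator {v : HeightOneSpectrum (𝓞 K) | (N : 𝓞 K) ∉ v.asIdeal}
        (fun v => (locE g (2 * m + 1) (α v) (β v) (Ideal.absNorm v.asIdeal) s)⁻¹) := by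
    funext v
    by_cases hv : (N : 𝓞 K) ∈ v.asIdeal
    · rw [Set.mulIndicator_of_notMem (by simpa using hv)]
      by_cases hvq : ι q ∈ v.asIdeal
      · rw [if_pos hvq, if_neg (fun h => ((mem_SP q ι N hN v).1 h).1 hvq), one_mul]
      · have hvS : v ∈ SP q ι N hN := (mem_SP q ι N hN v).2 ⟨hvq, hv⟩
        rw [if_neg hvq, if_pos hvS]
        have e1 : α' v = (rt v).1 := by rw [hα']; simp only [if_pos hv]
        have e2 : β' v = (rt v).2 := by rw [hβ']; simp only [if_pos hv]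
        obtain ⟨k3, k4⟩ := rt_norm v (fun h => hvq (two_mem h2 v h))
        rw [e1, e2]
        exact inv_mul_cancel₀ (locE_ne g _ (two_le_nm v) k3 k4 hs')
    · rw [Set.mulIndicator_of_mem (by simpa using hv)]
      have hvq : ι q ∉ v.asIdeal := fun h => hv (hqN v h)
      have e1 : α' v = α v := by rw [hα']; simp only [if_neg hv]
      have e2 : β' v = β v := by rw [hβ']; simp only [if_neg hv]
      rw [if_neg hvq, if_neg (fun h => hv ((mem_SP q ι N hN v).1 h).2), mul_one, e1, e2]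
  rw [h6] at h5
  exact hasProd_subtype_iff_mulIndicator.2 h5

end

end Pool.Agent.Y762.EG
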