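import Pool.Agent.Y762.HK.Orth
import Pool.Agent.W164.RC.Chars

/-!
Products over the characters modulo `q` with `χ(i) = (-i)^k`
(adapted from `Pool.Agent.W164.RC.Chars`, which treats `k = 1`).
-/

set_option autoImplicit false

open Complex
open H385 (ZI RQ im1 chiZ phiQ nrm he2_proj)
open Pool.Agent.H304R2.EC.A1 (prim prim_one)
open Pool.Agent.Y762.HK (AllC mem_AllC all_orth card_AllC im1_pow4)
open Pool.Agent.W164.RC (two2 prim_unit prim_pow hasSum_congr_fun)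

namespace Pool.Agent.Y762.EG

open Classical in
/-- the characters modulo `q` with `χ(i) = (-i)^k` -/
noncomputable def FQk (q : ZI) (k : ℕ) : Finset (MulChar (RQ q) ℂ) :=
  (AllC q).filter (fun χ => chiZ q χ im1 = (-I) ^ k)

theorem mem_FQk {q : ZI} (hq : q ≠ 0) (k : ℕ) (χ : MulChar (RQ q) ℂ) :
    χ ∈ FQk q k ↔ chiZ q χ im1 = (-I) ^ k := by
  classical
  unfold FQk
  rw [Finset.mem_filter]
  exact ⟨fun h => h.2, fun h => ⟨mem_AllC q hq χ, h⟩⟩

theorem ind_k (q : ZI) (k : ℕ) (χ : MulChar (RQ q) ℂ)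
    [Decidable (chiZ q χ im1 = (-I) ^ k)] :
    (if chiZ q χ im1 = (-I) ^ k then (1 : ℂ) else 0) =
      1 / 4 * ∑ j ∈ Finset.range 4, (I ^ k) ^ j * (chiZ q χ im1) ^ j := by
  have hz := im1_pow4 q χ
  have h2 := he2_proj (z := chiZ q χ im1 * (I ^ k * (-I)))
    (by
      rw [mul_pow, hz, one_mul, mul_pow, ← pow_mul, mul_comm k 4, pow_mul, I_pow_four, one_pow,
        one_mul, neg_pow, I_pow_four]
      norm_num)
  have h3 : (chiZ q χ im1 * (I ^ k * (-I)) = -I) ↔ (chiZ q χ im1 = (-I) ^ k) := by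
    have e2 : (-I : ℂ) ^ k * I ^ k = 1 := by
      rw [← mul_pow]
      have : -I * I = (1 : ℂ) := by rw [neg_mul, I_mul_I, neg_neg]
      rw [this, one_pow]
    have hI : (-I : ℂ) ≠ 0 := neg_ne_zero.2 I_ne_zero
    constructor
    · intro h
      have e3 : chiZ q χ im1 * I ^ k = 1 := by
        apply mul_right_cancel₀ hI
        linear_combination h
      have e4 : (I : ℂ) ^ k ≠ 0 := pow_ne_zero _ I_ne_zero
      exact mul_right_cancel₀ e4 (e3.trans e2.symm)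
    · intro h
      rw [h]
      linear_combination (-I) * e2
  have h4 : (if chiZ q χ im1 = (-I) ^ k then (1 : ℂ) else 0) =
      if chiZ q χ im1 * (I ^ k * (-I)) = -I then (1 : ℂ) else 0 := by
    by_cases h5 : chiZ q χ im1 = (-I) ^ k
    · rw [if_pos h5, if_pos (h3.2 h5)]
    · rw [if_neg h5, if_neg (fun h => h5 (h3.1 h))]
  rw [h4, h2]
  congr 1
  refine Finset.sum_congr rfl fun j _ => ?_
  have e5 : (I * (-I) : ℂ) = 1 := by rw [mul_neg, I_mul_I, neg_neg]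
  calc I ^ j * (chiZ q χ im1 * (I ^ k * -I)) ^ j = (I * (-I)) ^ j * ((I ^ k) ^ j * (chiZ q χ im1) ^ j) := by
        rw [mul_pow, mul_pow, mul_pow]
        ring
    _ = _ := by rw [e5, one_pow, one_mul]

theorem sum_FQk {q : ZI} (hq : q ≠ 0) (h2 : two2 ∣ q) {z : ZI} (hz : prim z)
    (f : ℕ) (hfk : ∀ k : ℕ, q ∣ z ^ k - 1 ↔ f ∣ k) (k m : ℕ) :
    ∑ χ ∈ FQk q k, chiZ q χ (z ^ m) = if f ∣ m then (phiQ q : ℂ) / 4 else 0 := by
  classical
  have h1 : ∑ χ ∈ FQk q k, chiZ q χ (z ^ m) =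
      1 / 4 * ∑ j ∈ Finset.range 4, (I ^ k) ^ j * ∑ χ ∈ AllC q, chiZ q χ (im1 ^ j * z ^ m) := by
    unfold FQk
    rw [Finset.sum_filter]
    have e1 : ∀ χ ∈ AllC q, (if chiZ q χ im1 = (-I) ^ k then chiZ q χ (z ^ m) else 0) =
        (1 / 4 * ∑ j ∈ Finset.range 4, (I ^ k) ^ j * (chiZ q χ im1) ^ j) * chiZ q χ (z ^ m) := by
      intro χ _
      rw [← ind_k q k χ]
      split_ifs <;> simp
    rw [Finset.sum_congr rfl e1]
    have e2 : ∀ χ ∈ AllC q, (1 / 4 * ∑ j ∈ Finset.range 4, (I ^ k) ^ j * (chiZ q χ im1) ^ j) *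
        chiZ q χ (z ^ m) = 1 / 4 * ∑ j ∈ Finset.range 4, (I ^ k) ^ j * chiZ q χ (im1 ^ j * z ^ m) := by
      intro χ _
      rw [mul_assoc, Finset.sum_mul]
      congr 1
      refine Finset.sum_congr rfl fun j _ => ?_
      rw [map_mul, map_pow (chiZ q χ) im1 j, mul_assoc]
    rw [Finset.sum_congr rfl e2, ← Finset.mul_sum, Finset.sum_comm]
    congr 1
    refine Finset.sum_congr rfl fun j _ => ?_
    rw [Finset.mul_sum]
  have h3 : ∀ j ∈ Finset.range 4, ∑ χ ∈ AllC q, chiZ q χ (im1 ^ j * z ^ m) =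
      if q ∣ im1 ^ j * z ^ m - 1 then (phiQ q : ℂ) else 0 := by
    intro j _
    have h4 := all_orth q hq (im1 ^ j * z ^ m) 1 isCoprime_one_left
    simp only [map_one, mul_one] at h4
    exact h4
  have hj : ∀ j ∈ Finset.range 4, j ≠ 0 → ¬ q ∣ im1 ^ j * z ^ m - 1 := by
    intro j hj hj0 hh
    rw [Finset.mem_range] at hj
    have h4 : q ∣ z ^ m - im1 ^ (4 - j) := by
      have : z ^ m - im1 ^ (4 - j) = im1 ^ (4 - j) * (im1 ^ j * z ^ m - 1) := by
        have e : im1 ^ (4 - j) * im1 ^ j = 1 := by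
          rw [← pow_add, Nat.sub_add_cancel (by omega)]
          exact H385.he2_im4
        linear_combination (-(z ^ m)) * e
      rw [this]
      exact hh.mul_left _
    have h5 : (im1 ^ (4 - j)).norm = 1 := by
      interval_cases j
      · exact absurd rfl hj0
      · decide
      · decide
      · decide
    have h6 := prim_unit h2 (prim_pow hz m) h5 h4
    interval_cases j
    · exact hj0 rfl
    · exact absurd h6 (by decide)
    · exact absurd h6 (by decide)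
    · exact absurd h6 (by decide)
  rw [h1, Finset.sum_eq_single 0 (fun j hj1 hj0 => by rw [h3 j hj1, if_neg (hj j hj1 hj0), mul_zero])
    (by simp), h3 0 (by simp)]
  simp only [pow_zero, one_mul, hfk]
  split_ifs
  · ring
  · ring

/-- `∏_χ (1 - χ(z) Y) = (1 - Y^f)^N` -/
theorem prod_FQk {q : ZI} (hq : q ≠ 0) (h2 : two2 ∣ q) (k : ℕ) {z : ZI} (hz : prim z)
    (hc : IsCoprime z q)
    (f N : ℕ) (hf0 : 0 < f) (hfk : ∀ k : ℕ, q ∣ z ^ k - 1 ↔ f ∣ k) (hN : 4 * (N * f) = phiQ q)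
    (Y : ℂ) (hY : ‖Y‖ < 1) :
    ∏ χ ∈ FQk q k, (1 - chiZ q χ z * Y) = (1 - Y ^ f) ^ N := by
  classical
  have hYf : ‖Y ^ f‖ < 1 := by
    rw [norm_pow]
    exact pow_lt_one₀ (norm_nonneg _) hY hf0.ne'
  have hχ : ∀ χ ∈ FQk q k, ‖chiZ q χ z * Y‖ < 1 := by
    intro χ _
    rw [norm_mul, H385.he9_norm q hq χ z hc, one_mul]
    exact hY
  have h1 : HasSum (fun j : ℕ => ∑ χ ∈ FQk q k, (chiZ q χ z * Y) ^ j / j)
      (∑ χ ∈ FQk q k, -Complex.log (1 - chiZ q χ z * Y)) :=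
    hasSum_sum fun χ h => Complex.hasSum_taylorSeries_neg_log (hχ χ h)
  have hphi : (phiQ q : ℂ) / 4 = N * f := by
    rw [← hN]; push_cast; ring
  have h2' : ∀ j : ℕ, ∑ χ ∈ FQk q k, (chiZ q χ z * Y) ^ j / j =
      if f ∣ j then ((N : ℂ) * f) * (Y ^ j / j) else 0 := by
    intro j
    have e1 : ∀ χ : MulChar (RQ q) ℂ, (chiZ q χ z * Y) ^ j / j =
        chiZ q χ (z ^ j) * (Y ^ j / j) := by
      intro χ
      rw [mul_pow, map_pow, mul_div_assoc]
    simp_rw [e1]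
    rw [← Finset.sum_mul, sum_FQk hq h2 hz f hfk, hphi]
    split_ifs with hk
    · rfl
    · rw [zero_mul]
  have h3 : HasSum (fun j : ℕ => ((N : ℂ) * f) * (Y ^ (f * j) / ((f * j : ℕ) : ℂ)))
      (∑ χ ∈ FQk q k, -Complex.log (1 - chiZ q χ z * Y)) := by
    have hinj : Function.Injective (fun j : ℕ => f * j) :=
      fun i j h => Nat.eq_of_mul_eq_mul_left hf0 h
    have := (hinj.hasSum_iff (f := fun j : ℕ => ∑ χ ∈ FQk q k, (chiZ q χ z * Y) ^ j / j)
      (a := ∑ χ ∈ FQk q k, -Complex.log (1 - chiZ q χ z * Y)) (by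
        intro k hk
        rw [h2', if_neg]
        rintro ⟨j, rfl⟩
        exact hk ⟨j, rfl⟩)).2 h1
    refine hasSum_congr_fun this (fun j => ?_)
    show _ = ∑ χ ∈ FQk q k, (chiZ q χ z * Y) ^ (f * j) / ((f * j : ℕ) : ℂ)
    rw [h2', if_pos (dvd_mul_right f j)]
  have h4 : HasSum (fun j : ℕ => ((N : ℂ) * f) * (Y ^ (f * j) / ((f * j : ℕ) : ℂ)))
      ((N : ℂ) * -Complex.log (1 - Y ^ f)) := by
    have := (Complex.hasSum_taylorSeries_neg_log hYf).mul_left (N : ℂ)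
    refine hasSum_congr_fun this (fun j => ?_)
    have hf0' : (f : ℂ) ≠ 0 := by exact_mod_cast hf0.ne'
    rw [pow_mul]
    push_cast
    rcases eq_or_ne (j : ℂ) 0 with hj | hj
    · rw [hj]; simp
    · field_simp
  have h5 := h3.unique h4
  have h6 : Complex.exp (∑ χ ∈ FQk q k, Complex.log (1 - chiZ q χ z * Y)) =
      Complex.exp (N * Complex.log (1 - Y ^ f)) := by
    congr 1
    rw [Finset.sum_neg_distrib] at h5
    linear_combination -h5
  have hne : ∀ w : ℂ, ‖w‖ < 1 → 1 - w ≠ 0 := by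
    intro w hw h
    have : w = 1 := by linear_combination -h
    rw [this] at hw
    simp at hw
  rw [Complex.exp_sum, Complex.exp_nat_mul, Complex.exp_log (hne _ hYf)] at h6
  rw [← h6]
  apply Finset.prod_congr rfl
  intro χ h
  rw [Complex.exp_log (hne _ (hχ χ h))]

end Pool.Agent.Y762.EG
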