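import Pool.Agent.Y762.EG.Euler2
import Pool.Agent.W164.RC.Count
import Pool.Agent.W354.HW.Main

/-!
The L-functions of the odd cohomology of the powers of `y² = x³ - x` over the ray class fields of
`ℚ(i)`: Euler product and zeros.
-/

set_option autoImplicit false

open NumberField IsDedekindDomain Complex Filter Topology Set
open H370 (zset mult NN Nd Ns)
open H385 (ZI RQ im1 chiZ phiQ nrm)
open Pool.Agent.H304R3.HK (tc one_le_norm_tc)
open Pool.Agent.Y762.HK (PrimData)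
open Pool.Agent.W354.PK (HCk LK bK psik goodK uh_psik lck_logC)
open Pool.Agent.W164.RC (Cq Cq_diff Cq_ne two2 two_dvd_star IsRayClassField order_mul_ne tr)
open Pool.Agent.W354.HW (mu locE locE_eq)

namespace Pool.Agent.Y762.EG

theorem cnt_eq' : Pool.Agent.W354.HW.cnt = Pool.Agent.H82R3.EK.cnt := rfl

theorem strip_eq' : Pool.Agent.W354.HW.strip = Pool.Agent.H82R3.EK.strip := rfl

theorem line_eq' : Pool.Agent.W354.HW.line = Pool.Agent.H82R3.EK.line := rfl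

open Pool.Agent.H82R3.EK (cnt cnt_prod NN_eq Ns_le strip line)
open Pool.Agent.W164.RC (cnt_mul_ne cnt_mul)

section
variable (cd : (q : ZI) → MulChar (RQ q) ℂ → ZI)
    (pr : (q : ZI) → MulChar (RQ q) ℂ → (ZI →* ℂ))
    (hprim : ∀ q : ZI, q ≠ 0 → ∀ χ, PrimData q χ (cd q χ) (pr q χ))

include hprim

theorem FEk_diff {q : ZI} (hq : q ≠ 0) {k : ℕ} (hk : 1 ≤ k) : Differentiable ℂ (FEk pr q k) := by
  obtain ⟨A, hA, hgood⟩ := goodK
  have h0 : FEk pr q k = fun s => ∏ χ ∈ FQk q k, (LK k (pr q χ) s * Cq q (psik k (pr q χ)) s) := rfl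
  rw [h0]
  apply Differentiable.fun_finsetProd
  intro χ hχ
  rw [mem_FQk hq] at hχ
  exact (hgood k _ _ hk ((hprim q hq χ).hck hq k hχ)).1.mul (Cq_diff q _)

/-- the properties of the factors -/
theorem fac_props {q : ZI} (hq : q ≠ 0) {k : ℕ} (hk : 1 ≤ k) {T : ℝ} (hT : 1 ≤ T) :
    ∀ χ ∈ FQk q k,
    (∀ s, AnalyticAt ℂ (LK k (pr q χ)) s) ∧ (∀ s, analyticOrderAt (LK k (pr q χ)) s ≠ ⊤) ∧
    (zset (LK k (pr q χ)) T (2 * T)).Finite ∧
    (∀ s : ℂ, 0 < s.re → Cq q (psik k (pr q χ)) s ≠ 0) := by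
  obtain ⟨A, hA, hgood⟩ := goodK
  intro χ hχ
  rw [mem_FQk hq] at hχ
  have hH := (hprim q hq χ).hck hq k hχ
  obtain ⟨g1, g2, g3, g4⟩ := hgood k _ _ hk hH
  refine ⟨fun s => g1.analyticAt s, fun s => ?_, ?_, fun s hs => Cq_ne q (uh_psik hH) hs⟩
  · have h4 : LK k (pr q χ) (⟨2, 1⟩ : ℂ) ≠ 0 := g4.nzr _ (by norm_num) (by norm_num)
    exact H370.Loc.order_ne_top (K := Set.univ) isPreconnected_univ
      (fun z _ => g1.analyticAt z) (Set.mem_univ _) h4 (Set.mem_univ s)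
  · exact Pool.Agent.W354.E.zset_finite_E hA (lck_logC k (one_le_norm_tc hH.q0)) g4 T (2 * T) hT

theorem FEk_cnt {q : ZI} (hq : q ≠ 0) {k : ℕ} (hk : 1 ≤ k) {T : ℝ} (hT : 1 ≤ T) {W : Set ℂ}
    (hW : W ⊆ strip T (2 * T)) :
    cnt (FEk pr q k) W = ∑ χ ∈ FQk q k, cnt (LK k (pr q χ)) W ∧
    (∀ s ∈ W, analyticOrderAt (FEk pr q k) s ≠ ⊤) ∧ {s : ℂ | s ∈ W ∧ FEk pr q k s = 0}.Finite := by
  classical
  have hp := fac_props cd pr hprim hq hk hT
  have hre : ∀ s ∈ W, 0 < s.re := fun s hs => (hW hs).1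
  have hC : ∀ χ ∈ FQk q k, ∀ s ∈ W, Cq q (psik k (pr q χ)) s ≠ 0 := fun χ hχ s hs =>
    (hp χ hχ).2.2.2 s (hre s hs)
  have han : ∀ χ ∈ FQk q k, ∀ s ∈ W,
      AnalyticAt ℂ (fun z => LK k (pr q χ) z * Cq q (psik k (pr q χ)) z) s :=
    fun χ hχ s _ => ((hp χ hχ).1 s).mul ((Cq_diff q _).analyticAt s)
  have hord : ∀ χ ∈ FQk q k, ∀ s ∈ W,
      analyticOrderAt (fun z => LK k (pr q χ) z * Cq q (psik k (pr q χ)) z) s ≠ ⊤ := by
    intro χ hχ s hs
    rw [order_mul_ne ((hp χ hχ).1 s) ((Cq_diff q _).analyticAt s) (hC χ hχ s hs)]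
    exact (hp χ hχ).2.1 s
  have hset : ∀ χ ∈ FQk q k,
      {s : ℂ | s ∈ W ∧ LK k (pr q χ) s * Cq q (psik k (pr q χ)) s = 0}.Finite := by
    intro χ hχ
    refine (hp χ hχ).2.2.1.subset ?_
    rintro s ⟨h1, h2⟩
    have h3 := (mul_eq_zero.1 h2).resolve_right (hC χ hχ s h1)
    obtain ⟨a, b, c, d⟩ := hW h1
    exact ⟨a, b, c, d, h3⟩
  refine ⟨?_, ?_, ?_⟩
  · have h := cnt_prod (FQk q k) (fun χ z => LK k (pr q χ) z * Cq q (psik k (pr q χ)) z) han hord hset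
    have h0 : FEk pr q k = fun s => ∏ χ ∈ FQk q k, (LK k (pr q χ) s * Cq q (psik k (pr q χ)) s) := rfl
    rw [h0, h]
    refine Finset.sum_congr rfl fun χ hχ => ?_
    exact cnt_mul_ne (fun s _ => (hp χ hχ).1 s) (fun s _ => (Cq_diff q _).analyticAt s) (hC χ hχ)
  · intro s hs
    have h := Pool.Agent.H82R3.EK.mult_prod (FQk q k)
      (fun χ z => LK k (pr q χ) z * Cq q (psik k (pr q χ)) z) (s := s)
      (fun χ hχ => han χ hχ s hs) (fun χ hχ => hord χ hχ s hs)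
    exact h.2.1
  · have hunion : (⋃ χ ∈ FQk q k,
        {s : ℂ | s ∈ W ∧ LK k (pr q χ) s * Cq q (psik k (pr q χ)) s = 0}).Finite :=
      Set.Finite.biUnion (FQk q k).finite_toSet hset
    refine hunion.subset ?_
    rintro s ⟨h1, h2⟩
    unfold FEk at h2
    rw [Finset.prod_eq_zero_iff] at h2
    obtain ⟨χ, hχ, h3⟩ := h2
    exact Set.mem_biUnion hχ ⟨h1, h3⟩

/-- both moduli -/
theorem pair_cnt {q : ZI} (hq : q ≠ 0) {k : ℕ} (hk : 1 ≤ k) {T : ℝ} (hT : 1 ≤ T) {W : Set ℂ}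
    (hW : W ⊆ strip T (2 * T)) :
    cnt (fun s => FEk pr q k s * FEk pr (star q) k s) W = ∑ χ ∈ FQk q k, cnt (LK k (pr q χ)) W +
      ∑ χ ∈ FQk (star q) k, cnt (LK k (pr (star q) χ)) W ∧
    (∀ s ∈ W, analyticOrderAt (fun s => FEk pr q k s * FEk pr (star q) k s) s ≠ ⊤) ∧
    {s : ℂ | s ∈ W ∧ FEk pr q k s * FEk pr (star q) k s = 0}.Finite := by
  have hq' : star q ≠ 0 := fun h => hq (by rw [← star_star q, h, star_zero])
  have hd1 := FEk_diff cd pr hprim hq hk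
  have hd2 := FEk_diff cd pr hprim hq' hk
  obtain ⟨a1, a2, a3⟩ := FEk_cnt cd pr hprim hq hk hT hW
  obtain ⟨b1, b2, b3⟩ := FEk_cnt cd pr hprim hq' hk hT hW
  refine ⟨?_, ?_, ?_⟩
  · rw [cnt_mul (fun s _ => hd1.analyticAt s) (fun s _ => hd2.analyticAt s) a2 b2 a3 b3, a1, b1]
  · intro s hs
    have h1 : analyticOrderAt (FEk pr q k * FEk pr (star q) k) s =
        analyticOrderAt (FEk pr q k) s + analyticOrderAt (FEk pr (star q) k) s :=
      analyticOrderAt_mul (hd1.analyticAt s) (hd2.analyticAt s)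
    have h2 : (fun s => FEk pr q k s * FEk pr (star q) k s) = FEk pr q k * FEk pr (star q) k := rfl
    rw [h2, h1]
    exact WithTop.add_ne_top.mpr ⟨a2 s hs, b2 s hs⟩
  · refine (a3.union b3).subset ?_
    rintro s ⟨h1, h2⟩
    rcases mul_eq_zero.1 h2 with h | h
    · exact Or.inl ⟨h1, h⟩
    · exact Or.inr ⟨h1, h⟩

omit hprim in
/-- the L-function of `H^i(E^g)`, `i = 2m+1`, over the ray class field modulo `q`, shifted to the
critical line `Re s = 1/2` -/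
noncomputable def LG (pr : (q : ZI) → MulChar (RQ q) ℂ → (ZI →* ℂ)) (q : ZI) (g m : ℕ) (s : ℂ) : ℂ :=
  ∏ l ∈ Finset.range (m + 1), (FEk pr q (2 * l + 1) s * FEk pr (star q) (2 * l + 1) s) ^ mu g m l

theorem LG_diff {q : ZI} (hq : q ≠ 0) (g m : ℕ) : Differentiable ℂ (LG pr q g m) := by
  have hq' : star q ≠ 0 := fun h => hq (by rw [← star_star q, h, star_zero])
  unfold LG
  refine Differentiable.fun_finsetProd fun l _ => ?_
  exact ((FEk_diff cd pr hprim hq (by omega)).mul (FEk_diff cd pr hprim hq' (by omega))).pow _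

omit hprim in
theorem line_sub (T : ℝ) : line T (2 * T) ⊆ strip T (2 * T) := by
  rintro s ⟨h1, h2, h3⟩
  exact ⟨by rw [h1]; norm_num, by rw [h1]; norm_num, h2, h3⟩

omit hprim in
/-- the number of the zeros of the L-functions for one `k` -/
noncomputable def SN (pr : (q : ZI) → MulChar (RQ q) ℂ → (ZI →* ℂ)) (q : ZI) (k : ℕ) (T : ℝ) : ℕ :=
  ∑ χ ∈ FQk q k, NN (LK k (pr q χ)) T (2 * T)

omit hprim in
/-- the number of the simple critical zeros of the L-functions for one `k` -/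
noncomputable def SS (pr : (q : ZI) → MulChar (RQ q) ℂ → (ZI →* ℂ)) (q : ZI) (k : ℕ) (T : ℝ) : ℕ :=
  ∑ χ ∈ FQk q k, Ns (LK k (pr q χ)) T (2 * T)

theorem LG_cnt {q : ZI} (hq : q ≠ 0) (g m : ℕ) {T : ℝ} (hT : 1 ≤ T) {W : Set ℂ}
    (hW : W ⊆ strip T (2 * T)) :
    cnt (LG pr q g m) W = ∑ l ∈ Finset.range (m + 1), mu g m l *
      (∑ χ ∈ FQk q (2 * l + 1), cnt (LK (2 * l + 1) (pr q χ)) W +
      ∑ χ ∈ FQk (star q) (2 * l + 1), cnt (LK (2 * l + 1) (pr (star q) χ)) W) ∧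
    {s : ℂ | s ∈ W ∧ LG pr q g m s = 0}.Finite := by
  have hq' : star q ≠ 0 := fun h => hq (by rw [← star_star q, h, star_zero])
  have h1 : ∀ l : ℕ, _ := fun l => pair_cnt cd pr hprim hq (k := 2 * l + 1) (by omega) hT hW
  refine ⟨?_, ?_⟩
  · have h := Pool.Agent.W354.HW.cnt_prod (Finset.range (m + 1))
      (fun l s => FEk pr q (2 * l + 1) s * FEk pr (star q) (2 * l + 1) s) (mu g m) (W := W)
      (fun l _ s _ => ((FEk_diff cd pr hprim hq (by omega)).analyticAt s).mul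
        ((FEk_diff cd pr hprim hq' (by omega)).analyticAt s))
      (fun l _ => (h1 l).2.1) (fun l _ => (h1 l).2.2)
    have h2 : LG pr q g m = fun z => ∏ l ∈ Finset.range (m + 1),
      (FEk pr q (2 * l + 1) z * FEk pr (star q) (2 * l + 1) z) ^ mu g m l := rfl
    rw [h2, ← cnt_eq', h]
    refine Finset.sum_congr rfl fun l _ => ?_
    rw [cnt_eq', (h1 l).1]
  · exact Pool.Agent.W354.HW.zeros_prod_finite (Finset.range (m + 1))
      (fun l s => FEk pr q (2 * l + 1) s * FEk pr (star q) (2 * l + 1) s) (mu g m)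
      (fun l _ => (h1 l).2.2)

theorem LG_NN {q : ZI} (hq : q ≠ 0) (g m : ℕ) {T : ℝ} (hT : 1 ≤ T) :
    cnt (LG pr q g m) (strip T (2 * T)) = ∑ l ∈ Finset.range (m + 1), mu g m l *
      (SN pr q (2 * l + 1) T + SN pr (star q) (2 * l + 1) T) := by
  rw [(LG_cnt cd pr hprim hq g m hT subset_rfl).1]
  refine Finset.sum_congr rfl fun l _ => ?_
  unfold SN
  congr 2
  · exact Finset.sum_congr rfl fun χ _ => (NN_eq _ _ _).symm
  · exact Finset.sum_congr rfl fun χ _ => (NN_eq _ _ _).symm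

theorem LG_Ns {q : ZI} (hq : q ≠ 0) (g m : ℕ) {T : ℝ} (hT : 1 ≤ T) :
    ∑ l ∈ Finset.range (m + 1), mu g m l *
      (SS pr q (2 * l + 1) T + SS pr (star q) (2 * l + 1) T) ≤
    cnt (LG pr q g m) (line T (2 * T)) := by
  have hq' : star q ≠ 0 := fun h => hq (by rw [← star_star q, h, star_zero])
  rw [(LG_cnt cd pr hprim hq g m hT (line_sub T)).1]
  refine Finset.sum_le_sum fun l _ => Nat.mul_le_mul_left _ ?_
  unfold SS
  refine add_le_add ?_ ?_
  · exact Finset.sum_le_sum fun χ hχ => Ns_le _ _ _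
      (fac_props cd pr hprim hq (by omega) hT χ hχ).2.2.1
  · exact Finset.sum_le_sum fun χ hχ => Ns_le _ _ _
      (fac_props cd pr hprim hq' (by omega) hT χ hχ).2.2.1

/-- the Euler product over the places of the ray class field -/
theorem hasProd_LG {q : ZI} {K : Type} [Field K] [NumberField K] {ι : ZI →+* 𝓞 K}
    {art : (RQ q)ˣ →* (𝓞 K ≃+* 𝓞 K)}
    (hq : q ≠ 0) (h2 : two2 ∣ q) (H : IsRayClassField q K ι art)
    (α β : HeightOneSpectrum (𝓞 K) → ℂ) (hR : Roots q ι α β)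
    (g m : ℕ) {s : ℂ} (hs : 1 + ((2 * m + 1 : ℕ) : ℝ) / 2 < s.re) :
    HasProd (open Classical in fun v : HeightOneSpectrum (𝓞 K) =>
      if ι q ∈ v.asIdeal then 1
      else (locE g (2 * m + 1) (α v) (β v) (Ideal.absNorm v.asIdeal) s)⁻¹)
      (LG pr q g m (s - ((2 * m + 1 : ℕ) : ℂ) / 2)) := by
  classical
  have hre : (1 : ℝ) < (s - ((2 * m + 1 : ℕ) : ℂ) / 2).re := by
    have : (((2 * m + 1 : ℕ) : ℂ) / 2).re = ((2 * m + 1 : ℕ) : ℝ) / 2 := by
      rw [show (((2 * m + 1 : ℕ) : ℂ) / 2) = (((((2 * m + 1 : ℕ) : ℝ)) / 2 : ℝ) : ℂ) by push_cast; rfl]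
      exact Complex.ofReal_re _
    rw [Complex.sub_re, this]
    linarith
  have hfun : (fun v : HeightOneSpectrum (𝓞 K) => if ι q ∈ v.asIdeal then 1
      else (locE g (2 * m + 1) (α v) (β v) (Ideal.absNorm v.asIdeal) s)⁻¹) =
      fun v : HeightOneSpectrum (𝓞 K) => ∏ l ∈ Finset.range (m + 1),
        (if ι q ∈ v.asIdeal then 1 else efk (2 * l + 1) (α v) (β v) (Ideal.absNorm v.asIdeal)
          (s - ((2 * m + 1 : ℕ) : ℂ) / 2)) ^ mu g m l := by
    funext v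
    by_cases hv : ι q ∈ v.asIdeal
    · simp only [if_pos hv, one_pow, Finset.prod_const_one]
    · simp only [if_neg hv]
      obtain ⟨r1, r2⟩ := hR v hv
      have hn : Ideal.absNorm v.asIdeal ≠ 0 := by
        have := Pool.Agent.H921R2.TatePole.two_le_nm v
        unfold Pool.Agent.H921R2.TatePole.nm at this
        omega
      exact locE_eq g m (α v) (β v) (Ideal.absNorm v.asIdeal) hn r2 s
  rw [hfun]
  unfold LG
  refine hasProd_prod fun l _ => ?_
  have h := hasProd_Kk cd pr hprim hq h2 H α β hR (k := 2 * l + 1) (by omega) hre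
  generalize mu g m l = c
  induction c with
  | zero => simpa using hasProd_one
  | succ c ih =>
    have := ih.mul h
    simp only [pow_succ]
    exact this

end

end Pool.Agent.Y762.EG
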