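import Pool.Agent.Y762.EG.Chars
import Pool.Agent.Y762.HK.Cond
import Pool.Agent.W354.PK.FinK
import Pool.Agent.W164.RC.Bad

/-!
The product of the L-functions `L(s, χ* ψ_∞^k)` over the characters modulo `q` as an Euler product
(adapted from `Pool.Agent.W164.RC.Euler` and `Euler2`, which treat `k = 1`).
-/

set_option autoImplicit false

open NumberField IsDedekindDomain Complex
open H385 (ZI RQ im1 chiZ phiQ nrm)
open Pool.Agent.H304R2.EC.A1 (prim prim_one prim_star norm_def' gnorm_star)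
open Pool.Agent.H304R3.HK (bb ee UH tc tc_ne_zero tc_star_mul)
open Pool.Agent.H921R2.TatePole (below deg nm nm_eq nm_summable two_le_nm)
open Pool.Agent.H82R3.EK (below_eq_of_mem)
open Pool.Agent.Y762.HK (PrimData)
open Pool.Agent.W354.PK (HCk LK bK psik goodK uh_psik)
open Pool.Agent.W354.PK.TK (psik_apply)
open Pool.Agent.W164.RC

namespace Pool.Agent.Y762.EG

/-- `Y = (z / |z|)^k N(z)^(-s)` -/
noncomputable def Yk (k p : ℕ) (s : ℂ) (z : ZI) : ℂ :=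
  (tc z / (‖tc z‖ : ℂ)) ^ k * ((p : ℂ) ^ (-s)) ^ dg p

theorem unit_norm_tc {z : ZI} (hz : z ≠ 0) : ‖tc z / (‖tc z‖ : ℂ)‖ = 1 := by
  rw [norm_div, Complex.norm_real, norm_norm]
  exact div_self (norm_ne_zero_iff.2 (tc_ne_zero hz))

theorem norm_Yk_eq (k : ℕ) {p : ℕ} (hp : p.Prime) {z : ZI} (hz : z ≠ 0) (s : ℂ) :
    ‖Yk k p s z‖ = ((p : ℝ) ^ (-s.re)) ^ dg p := by
  unfold Yk
  rw [norm_mul, norm_pow, unit_norm_tc hz, one_pow, one_mul, norm_pow,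
    Complex.norm_natCast_cpow_of_pos hp.pos, Complex.neg_re]

theorem norm_Yk (k : ℕ) {p : ℕ} (hp : p.Prime) {z : ZI} (hz : z ≠ 0) {s : ℂ} (hs : 0 < s.re) :
    ‖Yk k p s z‖ < 1 := by
  rw [norm_Yk_eq k hp hz]
  have hp1 : (1 : ℝ) < p := by exact_mod_cast hp.one_lt
  exact pow_lt_one₀ (by positivity) (Real.rpow_lt_one_of_one_lt_of_neg hp1 (by linarith)) (dg_pos p)

/-- the local factor of the character `χ` in terms of `Y` -/
theorem psik_Yk (k : ℕ) {q : ZI} {ψ : ZI →* ℂ} {χ : MulChar (RQ q) ℂ}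
    (hval : ∀ a : ZI, IsCoprime a q → ψ a = chiZ q χ a)
    {p : ℕ} (hp : p.Prime) {z : ZI} (hz : z ∈ Ip p) (hzq : ¬ z ∣ q) (s : ℂ) :
    psik k ψ z * ((p : ℂ) ^ (-s)) ^ dg p = chiZ q χ z * Yk k p s z := by
  obtain ⟨-, hzp, -, -⟩ := Ip_spec hp hz
  have hc : IsCoprime z q := (hzp.irreducible.coprime_iff_not_dvd).2 hzq
  rw [psik_apply, if_neg hzp.ne_zero, hval z hc]
  unfold Yk
  ring

/-- product over the characters of the local factors at `p` -/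
theorem chi_side_k (k : ℕ) {q : ZI} (hq : q ≠ 0) (h2 : two2 ∣ q)
    (pr : MulChar (RQ q) ℂ → (ZI →* ℂ))
    (hval : ∀ χ ∈ FQk q k, ∀ a : ZI, IsCoprime a q → pr χ a = chiZ q χ a)
    {p : ℕ} (hp : p.Prime) (f N : ZI → ℕ)
    (hf : ∀ z ∈ Ip p, ¬ z ∣ q → 0 < f z ∧ (∀ k : ℕ, q ∣ z ^ k - 1 ↔ f z ∣ k) ∧
      4 * (N z * f z) = phiQ q) {s : ℂ} (hs : 0 < s.re) :
    ∏ χ ∈ FQk q k, epf q (psik k (pr χ)) s p = if p = 2 then 1 else
      ∏ᶠ z ∈ {z : ZI | z ∈ Ip p ∧ ¬ z ∣ q}, ((1 - Yk k p s z ^ f z) ^ N z)⁻¹ := by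
  classical
  unfold epf
  split_ifs with hp2
  · simp
  · have h3 : {z : ZI | z ∈ Ip p ∧ ¬ z ∣ q} = (((Ip p).filter (fun z => ¬ z ∣ q) : Finset ZI) :
        Set ZI) := by
      ext z
      simp
    rw [h3, finprod_mem_coe_finset, Finset.prod_comm]
    refine Finset.prod_congr rfl fun z hz => ?_
    rw [Finset.mem_filter] at hz
    obtain ⟨hz1, hz2⟩ := hz
    obtain ⟨hf0, hfk, hN⟩ := hf z hz1 hz2
    obtain ⟨hprim, hzp, -, -⟩ := Ip_spec hp hz1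
    have hc : IsCoprime z q := (hzp.irreducible.coprime_iff_not_dvd).2 hz2
    rw [← prod_FQk hq h2 k hprim hc (f z) (N z) hf0 hfk hN _ (norm_Yk k hp hzp.ne_zero hs),
      ← Finset.prod_inv_distrib]
    refine Finset.prod_congr rfl fun χ hχ => ?_
    rw [psik_Yk k (hval χ hχ) hp hz1 hz2 s]

/-- the entire function attached to `q` and `k` -/
noncomputable def FEk (pr : (q : ZI) → MulChar (RQ q) ℂ → (ZI →* ℂ)) (q : ZI) (k : ℕ) (s : ℂ) : ℂ :=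
  ∏ χ ∈ FQk q k, (LK k (pr q χ) s * Cq q (psik k (pr q χ)) s)

/-- product over the characters -/
theorem hasProd_FEk (cd : (q : ZI) → MulChar (RQ q) ℂ → ZI)
    (pr : (q : ZI) → MulChar (RQ q) ℂ → (ZI →* ℂ))
    (hprim : ∀ q : ZI, q ≠ 0 → ∀ χ, PrimData q χ (cd q χ) (pr q χ))
    {q : ZI} (hq : q ≠ 0) (h2 : two2 ∣ q) {k : ℕ} (hk : 1 ≤ k)
    {s : ℂ} (hs : 1 < s.re) :
    HasProd (fun p : Nat.Primes => ∏ χ ∈ FQk q k, epf q (psik k (pr q χ)) s p) (FEk pr q k s) := by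
  obtain ⟨A, hA, hgood⟩ := goodK
  unfold FEk
  apply hasProd_prod
  intro χ hχ
  rw [mem_FQk hq] at hχ
  have hH := (hprim q hq χ).hck hq k hχ
  exact hasProd_epf hq h2 (uh_psik hH) (by linarith) ((hgood k _ _ hk hH).2.1 s hs)

section
variable {K : Type} [Field K] [NumberField K]

/-- the Euler factor `((1 - α^k N^(-s-k/2)) (1 - β^k N^(-s-k/2)))⁻¹` -/
noncomputable def efk (k : ℕ) (α β : ℂ) (n : ℕ) (s : ℂ) : ℂ :=
  ((1 - α ^ k * (n : ℂ) ^ (-(s + k / 2))) * (1 - β ^ k * (n : ℂ) ^ (-(s + k / 2))))⁻¹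

theorem sqrt_nrm {p : ℕ} (hp : p.Prime) {z : ZI} (hz : z ∈ Ip p) :
    ((‖tc z‖ : ℝ) : ℂ) = ((p : ℂ) ^ ((1 / 2 : ℂ))) ^ dg p := by
  obtain ⟨-, hzp, h3, -⟩ := Ip_spec hp hz
  have hpr : (0 : ℝ) < p := by exact_mod_cast hp.pos
  have h1 : ‖tc z‖ = ((p : ℝ) ^ (1 / 2 : ℝ)) ^ dg p := by
    have h2 := tc_star_mul z
    have h4 : ((z.norm : ℤ) : ℝ) = (p : ℝ) ^ dg p := by
      have h5 : z.norm = ((nrm z : ℕ) : ℤ) := (GaussianInt.abs_natCast_norm z).symm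
      rw [h5, h3]
      push_cast
      rfl
    rw [h4] at h2
    have h6 : ((((p : ℝ) ^ (1 / 2 : ℝ)) ^ dg p)) ^ 2 = (p : ℝ) ^ dg p := by
      rw [← pow_mul, mul_comm, pow_mul, ← Real.rpow_natCast ((p : ℝ) ^ (1 / 2 : ℝ)) 2,
        ← Real.rpow_mul hpr.le]
      norm_num
    rw [← h6] at h2
    exact (pow_left_inj₀ (norm_nonneg _) (by positivity) (by norm_num)).1 h2
  rw [h1, Complex.ofReal_pow, Complex.ofReal_cpow hpr.le]
  push_cast
  rfl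

/-- one factor -/
theorem one_fac (k : ℕ) {p : ℕ} (hp : p.Prime) {z : ZI} (hz : z ∈ Ip p) (f : ℕ) (s : ℂ) :
    ((tc z) ^ f) ^ k * (((nrm z ^ f : ℕ)) : ℂ) ^ (-(s + k / 2)) = Yk k p s z ^ f := by
  obtain ⟨-, hzp, h3, -⟩ := Ip_spec hp hz
  have hp0 : (p : ℂ) ≠ 0 := Nat.cast_ne_zero.2 hp.ne_zero
  have e1 : (((nrm z ^ f : ℕ)) : ℂ) ^ (-(s + k / 2)) =
      (((p : ℂ) ^ (-(s + k / 2))) ^ dg p) ^ f := by
    rw [h3, ← pow_mul, pow_cpow', ← pow_mul]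
  have e2 : (p : ℂ) ^ (-(s + k / 2)) = (p : ℂ) ^ (-s) * (((p : ℂ) ^ ((1 / 2 : ℂ))) ^ k)⁻¹ := by
    rw [← Complex.cpow_nat_mul, ← Complex.cpow_neg, ← Complex.cpow_add _ _ hp0]
    congr 1
    ring
  have e3 : ((‖tc z‖ : ℝ) : ℂ) ≠ 0 := by
    rw [Complex.ofReal_ne_zero, norm_ne_zero_iff]
    exact tc_ne_zero hzp.ne_zero
  have e4 := sqrt_nrm hp hz
  unfold Yk
  rw [e1, e2, e4, ← pow_mul (tc z) f k, mul_comm f k, pow_mul (tc z) k f, ← mul_pow]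
  rw [e4] at e3
  have e5 : (((p : ℂ) ^ ((1 / 2 : ℂ))) ^ k) ^ dg p = (((p : ℂ) ^ ((1 / 2 : ℂ))) ^ dg p) ^ k := by
    rw [← pow_mul, ← pow_mul, mul_comm]
  rw [mul_pow ((p : ℂ) ^ (-s)), inv_pow, e5, div_pow]
  congr 1
  generalize ((p : ℂ) ^ ((1 / 2 : ℂ))) ^ dg p = c at e3 ⊢
  field_simp

/-- the trace of Frobenius in terms of `z` -/
theorem tr_z {p : Nat.Primes} (h2 : (p : ℕ) ≠ 2) {z : ZI} (hz : z ∈ Ip p)
    (v : HeightOneSpectrum (𝓞 K)) (hv : below v = p) (f : ℕ)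
    (hf : Ideal.absNorm v.asIdeal = nrm z ^ f) :
    ((tr v : ℤ) : ℂ) = tc z ^ f + tc (star z) ^ f ∧
      (((Ideal.absNorm v.asIdeal : ℕ)) : ℂ) = tc z ^ f * tc (star z) ^ f := by
  have h1 := eulerFactor_z h2 hz v hv f hf 0
  have hn : (((Ideal.absNorm v.asIdeal : ℕ)) : ℂ) = tc z ^ f * tc (star z) ^ f := by
    rw [hf, ← mul_pow, ← tc_mul]
    have h3 : z * star z = ((nrm z : ℕ) : ZI) := by
      have h4 := Zsqrtd.norm_eq_mul_conj z
      rw [← h4]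
      have h5 : z.norm = ((nrm z : ℕ) : ℤ) := (GaussianInt.abs_natCast_norm z).symm
      rw [h5]
      push_cast
      rfl
    rw [h3]
    have h6 : tc ((nrm z : ℕ) : ZI) = (nrm z : ℂ) := by
      unfold tc
      simp
    rw [h6]
    push_cast
    rfl
  refine ⟨?_, hn⟩
  rw [eulerFactor_lpoly] at h1
  have h3 := inv_injective h1
  unfold lpoly YY at h3
  simp only [neg_zero, Complex.cpow_zero, one_pow, mul_one, mul_zero, sub_zero, Complex.cpow_one] at h3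
  rw [hn] at h3
  push_cast at h3
  linear_combination -h3

theorem efk_z (k : ℕ) {p : Nat.Primes} (h2 : (p : ℕ) ≠ 2) {z : ZI} (hz : z ∈ Ip p)
    (v : HeightOneSpectrum (𝓞 K)) (hv : below v = p) (f : ℕ)
    (hf : Ideal.absNorm v.asIdeal = nrm z ^ f) (α β : ℂ) (hs1 : α + β = ((tr v : ℤ) : ℂ))
    (hm : α * β = (((Ideal.absNorm v.asIdeal : ℕ)) : ℂ)) (s : ℂ) :
    efk k α β (Ideal.absNorm v.asIdeal) s =
      ((1 - Yk k p s z ^ f) * (1 - Yk k p s (star z) ^ f))⁻¹ := by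
  obtain ⟨h3, h4⟩ := tr_z h2 hz v hv f hf
  have hz' := star_mem_Ip p.2 hz
  have e1 := one_fac k p.2 hz f s
  have e2 := one_fac k p.2 hz' f s
  have hns : nrm (star z) = nrm z := by
    unfold nrm
    rw [gnorm_star]
  rw [hns] at e2
  unfold efk
  rw [← e1, ← e2, ← hf]
  set a : ℂ := tc z ^ f
  set b : ℂ := tc (star z) ^ f
  have h5 : (α - a) * (α - b) = 0 := by
    have : (α - a) * (α - b) = α * α - (a + b) * α + a * b := by ring
    rw [this, ← h3, ← hs1, ← h4, ← hm]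
    ring
  rcases mul_eq_zero.mp h5 with h6 | h6
  · have h7 : α = a := sub_eq_zero.mp h6
    have h8 : β = b := by
      rw [h7, h3] at hs1
      exact add_left_cancel hs1
    rw [h7, h8]
  · have h7 : α = b := sub_eq_zero.mp h6
    have h8 : β = a := by
      rw [h7, h3, add_comm a b] at hs1
      exact add_left_cancel hs1
    rw [h7, h8, mul_comm]

end

end Pool.Agent.Y762.EG
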