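import Pool.Agent.Y762.EG.Euler

/-!
The Euler product over the places of the ray class field.
-/

set_option autoImplicit false

open NumberField IsDedekindDomain Complex
open H385 (ZI RQ im1 chiZ phiQ nrm)
open Pool.Agent.H304R3.HK (bb ee UH tc tc_ne_zero tc_star_mul)
open Pool.Agent.H921R2.TatePole (below deg nm nm_eq nm_summable two_le_nm)
open Pool.Agent.H82R3.EK (below_eq_of_mem)
open Pool.Agent.Y762.HK (PrimData)
open Pool.Agent.W354.PK (HCk LK bK psik goodK uh_psik)
open Pool.Agent.W164.RC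

namespace Pool.Agent.Y762.EG

section
variable {q : ZI} {K : Type} [Field K] [NumberField K] {ι : ZI →+* 𝓞 K}
  {art : (RQ q)ˣ →* (𝓞 K ≃+* 𝓞 K)}

/-- `α v`, `β v` are the roots of `T² - a_v T + N v` at the places prime to `q` -/
def Roots (q : ZI) (ι : ZI →+* 𝓞 K) (α β : HeightOneSpectrum (𝓞 K) → ℂ) : Prop :=
  ∀ v : HeightOneSpectrum (𝓞 K), ι q ∉ v.asIdeal → α v + β v = ((tr v : ℤ) : ℂ) ∧
    α v * β v = (((Ideal.absNorm v.asIdeal : ℕ)) : ℂ)

theorem two_mem (h2 : two2 ∣ q) (v : HeightOneSpectrum (𝓞 K)) (hv : (below v : ℕ) = 2) :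
    ι q ∈ v.asIdeal := by
  have h3 := (nm_eq v).2.2
  rw [hv] at h3
  have h4 : ι ⟨1, 1⟩ ∈ v.asIdeal := by
    have h5 : ι ⟨1, 1⟩ * ι ⟨1, 1⟩ ∈ v.asIdeal := by
      have e : ((⟨1, 1⟩ : ZI) * ⟨1, 1⟩) = ⟨0, 1⟩ * ((2 : ℕ) : ZI) := by decide
      rw [← map_mul, e, map_mul, map_natCast]
      exact v.asIdeal.mul_mem_left _ h3
    rcases v.isPrime.mem_or_mem h5 with h | h <;> exact h
  obtain ⟨c, rfl⟩ := (show (⟨1, 1⟩ : ZI) ∣ two2 from ⟨2, by decide⟩).trans h2
  rw [map_mul]
  exact v.asIdeal.mul_mem_right _ h4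

/-- product over the places above `p` -/
theorem fiber_Kk (k : ℕ) (hq : q ≠ 0) (h2 : two2 ∣ q) (H : IsRayClassField q K ι art)
    (α β : HeightOneSpectrum (𝓞 K) → ℂ) (hR : Roots q ι α β) (p : Nat.Primes)
    (s : ℂ) :
    (open Classical in ∏ v : {v : HeightOneSpectrum (𝓞 K) // below v = p},
      (if ι q ∈ v.1.asIdeal then 1 else efk k (α v.1) (β v.1) (Ideal.absNorm v.1.asIdeal) s)) =
      if (p : ℕ) = 2 then 1 else ∏ᶠ z ∈ {z : ZI | z ∈ Ip p ∧ ¬ z ∣ q},
        (((1 - Yk k p s z ^ fz q z) ^ Nz q z)⁻¹ *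
          ((1 - Yk k p s (star z) ^ fz q z) ^ Nz q z)⁻¹) := by
  classical
  split_ifs with hp2
  · apply Finset.prod_eq_one
    rintro ⟨v, hv⟩ _
    rw [if_pos]
    exact two_mem h2 v (by rw [hv]; exact hp2)
  · have h3 : {z : ZI | z ∈ Ip p ∧ ¬ z ∣ q} = (((Ip p).filter (fun z => ¬ z ∣ q) : Finset ZI) :
        Set ZI) := by
      ext z
      simp
    rw [h3, finprod_mem_coe_finset]
    set J := (Ip p).filter (fun z => ¬ z ∣ q) with hJ
    have hcop : ∀ z ∈ J, IsCoprime z q := by
      intro z hz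
      rw [hJ, Finset.mem_filter] at hz
      exact ((Ip_spec p.2 hz.1).2.1.irreducible.coprime_iff_not_dvd).2 hz.2
    rw [Finset.prod_ite, Finset.prod_const_one, one_mul]
    have hU : (Finset.univ : Finset {v : HeightOneSpectrum (𝓞 K) // below v = p}).filter
        (fun v => ¬ ι q ∈ v.1.asIdeal) = J.biUnion (fun z =>
          (Finset.univ : Finset {v : HeightOneSpectrum (𝓞 K) // below v = p}).filter
            (fun v => ι z ∈ v.1.asIdeal)) := by
      ext v
      simp only [Finset.mem_filter, Finset.mem_univ, true_and, Finset.mem_biUnion]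
      constructor
      · intro hv
        have h4 := (nm_eq v.1).2.2
        rw [v.2] at h4
        have := v.1.isPrime
        obtain ⟨z, hz, hzv⟩ := Ip_exists p.2 hp2 ι v.1.asIdeal h4
        refine ⟨z, ?_, hzv⟩
        rw [hJ, Finset.mem_filter]
        refine ⟨hz, ?_⟩
        rintro ⟨c, rfl⟩
        apply hv
        rw [map_mul]
        exact v.1.asIdeal.mul_mem_right _ hzv
      · rintro ⟨z, hz, hzv⟩
        exact not_mem_both (hcop z hz) hzv
    rw [hU, Finset.prod_biUnion]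
    · refine Finset.prod_congr rfl fun z hz => ?_
      have hz' := hz
      rw [hJ, Finset.mem_filter] at hz'
      obtain ⟨k1, k2, k3, k4⟩ := Nz_spec hq h2 H p.2 hz'.1 hz'.2
      have h5 : ∀ v ∈ (Finset.univ : Finset {v : HeightOneSpectrum (𝓞 K) // below v = p}).filter
            (fun v => ι z ∈ v.1.asIdeal),
          efk k (α v.1) (β v.1) (Ideal.absNorm v.1.asIdeal) s =
          ((1 - Yk k p s z ^ fz q z) * (1 - Yk k p s (star z) ^ fz q z))⁻¹ := by
        intro v hv
        rw [Finset.mem_filter] at hv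
        obtain ⟨r1, r2⟩ := hR v.1 (not_mem_both (hcop z hz) hv.2)
        exact efk_z k hp2 hz'.1 v.1 v.2 _ (k1 v.1 hv.2) _ _ r1 r2 s
      rw [Finset.prod_congr rfl h5, Finset.prod_const]
      have h6 : ((Finset.univ : Finset {v : HeightOneSpectrum (𝓞 K) // below v = p}).filter
            (fun v => ι z ∈ v.1.asIdeal)).card = Nz q z := by
        rw [← k2, ← Fintype.card_subtype, ← Nat.card_eq_fintype_card]
        refine Nat.card_congr
          { toFun := fun v => ⟨v.1.1, v.2⟩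
            invFun := fun v => ⟨⟨v.1, ?_⟩, v.2⟩
            left_inv := fun v => rfl
            right_inv := fun v => rfl }
        apply below_eq_of_mem
        obtain ⟨c, hc⟩ := (Ip_spec p.2 hz'.1).2.2.2
        have h7 : (((p : ℕ)) : 𝓞 K) = ι z * ι c := by
          rw [← map_mul, ← hc, map_natCast]
        rw [h7]
        exact v.1.asIdeal.mul_mem_right _ v.2
      rw [h6, inv_pow, mul_pow, mul_inv]
    · intro z hz w hw hzw
      rw [Function.onFun, Finset.disjoint_left]
      intro v hv hv'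
      rw [Finset.mem_filter] at hv hv'
      have hz' := Finset.mem_coe.1 hz
      have hw' := Finset.mem_coe.1 hw
      rw [hJ, Finset.mem_filter] at hz' hw'
      exact not_mem_both (Ip_coprime p.2 hz'.1 hw'.1 hzw) hv.2 hv'.2

theorem inv_bound {w1 w2 : ℂ} {x : ℝ} (h1 : ‖w1‖ ≤ x) (h2 : ‖w2‖ ≤ x) (hx0 : 0 ≤ x) (hx : x ≤ 1 / 6) :
    ‖((1 - w1) * (1 - w2))⁻¹ - 1‖ ≤ 6 * x := by
  have a1 : 5 / 6 ≤ ‖1 - w1‖ := by
    have := norm_sub_norm_le (1 : ℂ) w1
    rw [norm_one] at this
    linarith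
  have a2 : 5 / 6 ≤ ‖1 - w2‖ := by
    have := norm_sub_norm_le (1 : ℂ) w2
    rw [norm_one] at this
    linarith
  have n1 : (1 - w1) ≠ 0 := by
    intro h
    rw [h, norm_zero] at a1
    linarith
  have n2 : (1 - w2) ≠ 0 := by
    intro h
    rw [h, norm_zero] at a2
    linarith
  have e : ((1 - w1) * (1 - w2))⁻¹ - 1 = (w1 + w2 - w1 * w2) / ((1 - w1) * (1 - w2)) := by
    field_simp
    ring
  rw [e, norm_div, norm_mul]
  have h3 : ‖w1 + w2 - w1 * w2‖ ≤ x + x + x * x := by
    refine (norm_sub_le _ _).trans ?_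
    rw [norm_mul]
    have h4 := norm_add_le w1 w2
    have h5 : ‖w1‖ * ‖w2‖ ≤ x * x := mul_le_mul h1 h2 (norm_nonneg _) hx0
    linarith
  have h6 : 25 / 36 ≤ ‖1 - w1‖ * ‖1 - w2‖ := by nlinarith
  rw [div_le_iff₀ (by linarith)]
  nlinarith

theorem norm_rt {v : HeightOneSpectrum (𝓞 K)} {z : ZI} {p : ℕ} (hp : p.Prime) (hz : z ∈ Ip p)
    (f k : ℕ) (hf : Ideal.absNorm v.asIdeal = nrm z ^ f) (s : ℂ) :
    ‖Yk k p s z ^ f‖ = ((Ideal.absNorm v.asIdeal : ℕ) : ℝ) ^ (-s.re) := by
  obtain ⟨-, hzp, h3, -⟩ := Ip_spec hp hz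
  have hp0 : (0 : ℝ) ≤ p := Nat.cast_nonneg p
  rw [norm_pow, norm_Yk_eq k hp hzp.ne_zero, hf, h3]
  push_cast
  rw [← pow_mul, ← pow_mul, ← Real.rpow_natCast ((p : ℝ) ^ (-s.re)), ← Real.rpow_mul hp0,
    ← Real.rpow_natCast (p : ℝ), ← Real.rpow_mul hp0]
  congr 1
  ring

/-- the Euler product over the places of `K` -/
theorem hasProd_Kk (cd : (q : ZI) → MulChar (RQ q) ℂ → ZI)
    (pr : (q : ZI) → MulChar (RQ q) ℂ → (ZI →* ℂ))
    (hprim : ∀ q : ZI, q ≠ 0 → ∀ χ, PrimData q χ (cd q χ) (pr q χ))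
    (hq : q ≠ 0) (h2 : two2 ∣ q) (H : IsRayClassField q K ι art)
    (α β : HeightOneSpectrum (𝓞 K) → ℂ) (hR : Roots q ι α β)
    {k : ℕ} (hk : 1 ≤ k) {s : ℂ} (hs : 1 < s.re) :
    HasProd (open Classical in fun v : HeightOneSpectrum (𝓞 K) =>
      if ι q ∈ v.asIdeal then 1 else efk k (α v) (β v) (Ideal.absNorm v.asIdeal) s)
      (FEk pr q k s * FEk pr (star q) k s) := by
  classical
  have hq' : star q ≠ 0 := fun h => hq (by rw [← star_star q, h, star_zero])
  have h2' := two_dvd_star h2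
  have hs' : 0 < s.re := by linarith
  have h1 := (hasProd_FEk cd pr hprim hq h2 hk hs).mul (hasProd_FEk cd pr hprim hq' h2' hk hs)
  have h3 : ∀ p : Nat.Primes, (∏ χ ∈ FQk q k, epf q (psik k (pr q χ)) s p) *
      (∏ χ ∈ FQk (star q) k, epf (star q) (psik k (pr (star q) χ)) s p) =
      ∏ v : {v : HeightOneSpectrum (𝓞 K) // below v = p},
        (if ι q ∈ v.1.asIdeal then 1 else efk k (α v.1) (β v.1) (Ideal.absNorm v.1.asIdeal) s) := by
    intro p
    rw [fiber_Kk k hq h2 H α β hR p s,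
      chi_side_k k hq h2 (pr q) (fun χ hχ => (hprim q hq χ).eq) p.2 (fz q) (Nz q)
        (fun z hz hzq => by
          obtain ⟨k1, k2, k3, k4⟩ := Nz_spec hq h2 H p.2 hz hzq
          exact ⟨k3, fz_dvd q z, k4⟩) hs',
      chi_side_k k hq' h2' (pr (star q)) (fun χ hχ => (hprim _ hq' χ).eq) p.2 (fz (star q))
        (Nz (star q))
        (fun z hz hzq => by
          have hz' := star_mem_Ip p.2 hz
          have hzq' : ¬ star z ∣ q := fun h => hzq (by
            rw [← star_star z]; exact star_dvd.2 h)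
          obtain ⟨k1, k2, k3, k4⟩ := Nz_spec hq h2 H p.2 hz' hzq'
          have e1 := fz_star q (star z)
          have e2 := Nz_star q (star z)
          rw [star_star] at e1 e2
          refine ⟨by rw [e1]; exact k3, fz_dvd _ z, ?_⟩
          rw [e1, e2, phiQ_star]
          exact k4) hs']
    split_ifs with hp2
    · rw [one_mul]
    · have e3 : {z : ZI | z ∈ Ip p ∧ ¬ z ∣ q} = (((Ip p).filter (fun z => ¬ z ∣ q) : Finset ZI) :
          Set ZI) := by
        ext z
        simp
      have e4 : {z : ZI | z ∈ Ip p ∧ ¬ z ∣ star q} =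
          ((((Ip p).filter (fun z => ¬ z ∣ q)).image star : Finset ZI) : Set ZI) := by
        ext z
        simp only [Set.mem_ofPred_eq, Finset.coe_image, Set.mem_image, Finset.mem_coe,
          Finset.mem_filter]
        constructor
        · rintro ⟨hz, hzq⟩
          refine ⟨star z, ⟨star_mem_Ip p.2 hz, fun h => hzq ?_⟩, star_star z⟩
          rw [← star_star z]; exact star_dvd.2 h
        · rintro ⟨w, ⟨hw, hwq⟩, rfl⟩
          exact ⟨star_mem_Ip p.2 hw, fun h => hwq (star_dvd.1 h)⟩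
      rw [e3, e4, finprod_mem_coe_finset, finprod_mem_coe_finset, finprod_mem_coe_finset,
        Finset.prod_image (fun a _ b _ h => star_injective h), ← Finset.prod_mul_distrib]
      refine Finset.prod_congr rfl fun z _ => ?_
      rw [fz_star, Nz_star]
  simp_rw [h3] at h1
  have h4 : Multipliable (fun v : HeightOneSpectrum (𝓞 K) =>
      if ι q ∈ v.asIdeal then 1 else efk k (α v) (β v) (Ideal.absNorm v.asIdeal) s) := by
    have hsum := nm_summable (K := K) (x := s.re) hs
    have h5 : Summable (fun v : HeightOneSpectrum (𝓞 K) =>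
        ‖(if ι q ∈ v.asIdeal then 1 else efk k (α v) (β v) (Ideal.absNorm v.asIdeal) s) - 1‖) := by
      refine Summable.of_norm_bounded_eventually (hsum.mul_left 6) ?_
      have h6 := hsum.tendsto_cofinite_zero.eventually (Iio_mem_nhds (by norm_num : (0 : ℝ) < 1 / 6))
      filter_upwards [h6] with v hv
      rw [norm_norm]
      split_ifs with hiq
      · rw [sub_self, norm_zero]
        positivity
      · have hv2 : (below v : ℕ) ≠ 2 := fun hb => hiq (two_mem h2 v hb)
        have h7 := (nm_eq v).2.2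
        have := v.isPrime
        obtain ⟨z, hz, hzv⟩ := Ip_exists (below v).2 hv2 ι v.asIdeal h7
        have hzq : ¬ z ∣ q := by
          rintro ⟨c, rfl⟩
          apply hiq
          rw [map_mul]
          exact v.asIdeal.mul_mem_right _ hzv
        obtain ⟨k1, k2, k3, k4⟩ := Nz_spec hq h2 H (below v).2 hz hzq
        obtain ⟨r1, r2⟩ := hR v hiq
        have hf := k1 v hzv
        have hz' := star_mem_Ip (below v).2 hz
        have hns : nrm (star z) = nrm z := by
          unfold nrm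
          rw [Pool.Agent.H304R2.EC.A1.gnorm_star]
        rw [efk_z k hv2 hz v rfl _ hf _ _ r1 r2 s]
        have b1 := norm_rt (below v).2 hz (fz q z) k hf s
        have b2 := norm_rt (v := v) (below v).2 hz' (fz q z) k (by rw [hns]; exact hf) s
        have e8 : ((nm v : ℕ) : ℝ) = ((Ideal.absNorm v.asIdeal : ℕ) : ℝ) := rfl
        refine inv_bound (x := ((nm v : ℕ) : ℝ) ^ (-s.re)) ?_ ?_ (by positivity) (le_of_lt hv)
        · rw [b1, e8]
        · rw [b2, e8]
    have h7 := multipliable_one_add_of_summable h5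
    refine h7.congr (fun v => ?_)
    ring
  rw [← (Equiv.sigmaFiberEquiv (below (K := K))).hasProd_iff]
  refine HasProd.sigma_of_hasProd h1 (fun p => ?_) ?_
  · exact hasProd_fintype _
  · exact (Equiv.sigmaFiberEquiv (below (K := K))).multipliable_iff.2 h4

end

end Pool.Agent.Y762.EG
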