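import Pool.Agent.Y762.EG.Count
import Pool.Agent.Y762.HK.Fin

/-!
The zeros of the L-functions of the powers of `y² = x³ - x` over ray class fields: the families for
one infinity type.
-/

set_option autoImplicit false

open Complex
open H370 (zset mult NN Nd Ns)
open H385 (ZI RQ im1 chiZ phiQ nrm)
open Pool.Agent.H304R3.HK (tc one_le_norm_tc)
open Pool.Agent.Y762 (cH)
open Pool.Agent.Y762.HK (PrimData Fam mem_Fam AllC mem_AllC card_k)
open Pool.Agent.W354.PK (LK)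
open Pool.Agent.W354.HW (mu)
open Pool.Agent.W164.RC (two2 two_dvd_star phiQ_star)

namespace Pool.Agent.Y762.EG

theorem fam_one {q : ZI} (hq : q ≠ 0) (k : ℕ) :
    Fam q k 1 = (FQk q k).map ⟨fun χ => (k, χ), fun _ _ h => (Prod.mk.inj h).2⟩ := by
  ext x
  rw [mem_Fam q hq, Finset.mem_map]
  constructor
  · rintro ⟨⟨h1, h2⟩, h3⟩
    have h4 : x.1 = k := by omega
    refine ⟨x.2, ?_, ?_⟩
    · rw [mem_FQk hq, ← h4]
      exact h3
    · show (k, x.2) = x
      rw [← h4]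
  · rintro ⟨χ, h1, rfl⟩
    rw [mem_FQk hq] at h1
    exact ⟨⟨le_refl _, Nat.lt_succ_self _⟩, h1⟩

theorem SN_eq (pr : (q : ZI) → MulChar (RQ q) ℂ → (ZI →* ℂ)) {q : ZI} (hq : q ≠ 0) (k : ℕ) (T : ℝ) :
    ∑ x ∈ Fam q k 1, (NN (LK x.1 (pr q x.2)) T (2 * T) : ℝ) = (SN pr q k T : ℝ) := by
  rw [fam_one hq, Finset.sum_map]
  unfold SN
  push_cast
  rfl

theorem SS_eq (pr : (q : ZI) → MulChar (RQ q) ℂ → (ZI →* ℂ)) {q : ZI} (hq : q ≠ 0) (k : ℕ) (T : ℝ) :
    ∑ x ∈ Fam q k 1, (Ns (LK x.1 (pr q x.2)) T (2 * T) : ℝ) = (SS pr q k T : ℝ) := by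
  rw [fam_one hq, Finset.sum_map]
  unfold SS
  push_cast
  rfl

theorem nrm_two2 {q : ZI} (hq : q ≠ 0) (h2 : two2 ∣ q) : 4 < nrm q := by
  have h := H385.he3_nrm h2 hq
  have e : nrm two2 = 8 := by decide
  omega

theorem card_FQk {q : ZI} (hq : 4 < nrm q) (k : ℕ) : ((FQk q k).card : ℝ) = (phiQ q : ℝ) / 4 := by
  classical
  have := card_k q hq k
  unfold FQk
  convert this

/-- the sum of the weights is half of the Betti number -/
theorem sum_mu (g m : ℕ) : 2 * ∑ l ∈ Finset.range (m + 1), mu g m l = (2 * g).choose (2 * m + 1) := by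
  have h1 : (g + g).choose (2 * m + 1) = ∑ i ∈ Finset.range (2 * m + 2),
      g.choose i * g.choose (2 * m + 1 - i) := by
    rw [Nat.add_choose_eq, Finset.Nat.sum_antidiagonal_eq_sum_range_succ
      (fun i j => g.choose i * g.choose j)]
  have h2 : 2 * m + 2 = (m + 1) + (m + 1) := by ring
  have h5 : ∑ i ∈ Finset.range ((m + 1) + (m + 1)), g.choose i * g.choose (2 * m + 1 - i) =
      ∑ i ∈ Finset.range (m + 1), g.choose i * g.choose (2 * m + 1 - i) +
      ∑ i ∈ Finset.range (m + 1), g.choose (m + 1 + i) * g.choose (2 * m + 1 - (m + 1 + i)) :=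
    Finset.sum_range_add _ _ _
  have h3 : ∑ i ∈ Finset.range (m + 1), g.choose i * g.choose (2 * m + 1 - i) =
      ∑ l ∈ Finset.range (m + 1), mu g m l := by
    rw [← Finset.sum_range_reflect]
    refine Finset.sum_congr rfl fun l hl => ?_
    rw [Finset.mem_range] at hl
    unfold mu
    have e1 : m + 1 - 1 - l = m - l := by omega
    have e2 : 2 * m + 1 - (m - l) = m + 1 + l := by omega
    rw [e1, e2]
  have h4 : ∑ i ∈ Finset.range (m + 1), g.choose (m + 1 + i) * g.choose (2 * m + 1 - (m + 1 + i)) =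
      ∑ l ∈ Finset.range (m + 1), mu g m l := by
    refine Finset.sum_congr rfl fun l hl => ?_
    rw [Finset.mem_range] at hl
    unfold mu
    have e2 : 2 * m + 1 - (m + 1 + l) = m - l := by omega
    rw [e2, mul_comm]
  rw [show (2 * g).choose (2 * m + 1) = (g + g).choose (2 * m + 1) by rw [two_mul], h1, h2, h5, h3,
    h4, two_mul]

/-- one infinity type -/
theorem eg_k (cd : (q : ZI) → MulChar (RQ q) ℂ → ZI)
    (pr : (q : ZI) → MulChar (RQ q) ℂ → (ZI →* ℂ))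
    (hprim : ∀ (q : ZI) (_ : q ≠ 0) (χ : MulChar (RQ q) ℂ), PrimData q χ (cd q χ) (pr q χ))
    (h ε : ℝ) (hh : 1 / 2 < h) (hh1 : h ≤ 1) (hε : 0 < ε) :
    ∃ C0 : ℝ, 1 ≤ C0 ∧ ∀ (q : ZI) (k : ℕ) (T : ℝ), q ≠ 0 → two2 ∣ q → 1 ≤ k →
      C0 * (1 + Real.sqrt (Real.log (‖tc q‖ * (k + 1)))) ≤ T →
      Real.exp (2 * h * Real.log (‖tc q‖ * (k + 1 + T))) ≤ ‖tc q‖ ^ 2 * T →
      (2 - (cH h + ε)) * (SN pr q k T : ℝ) ≤ (SS pr q k T : ℝ) ∧
      T * ((phiQ q : ℝ) / 4) ≤ (SN pr q k T : ℝ) := by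
  obtain ⟨C0, hC0, H⟩ := Pool.Agent.Y762.HK.hk_fin cd pr hprim h (min ε (1 / 2)) hh hh1
    (lt_min hε (by norm_num))
  refine ⟨max C0 (Real.exp 7), le_max_of_le_left hC0, ?_⟩
  intro q k T hq h2 hk hT hX
  have hQ1 := one_le_norm_tc hq
  have hk1 : (1 : ℝ) ≤ k := by exact_mod_cast hk
  have hsq := Real.sqrt_nonneg (Real.log (‖tc q‖ * (k + 1)))
  have hTC : max C0 (Real.exp 7) ≤ T := by
    refine le_trans ?_ hT
    have : 1 ≤ max C0 (Real.exp 7) := le_max_of_le_left hC0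
    nlinarith
  have hTe : Real.exp 7 ≤ T := (le_max_right _ _).trans hTC
  have hT0 : 0 < T := (Real.exp_pos 7).trans_le hTe
  have hT' : C0 * (1 + Real.sqrt (Real.log (‖tc q‖ * (k + ((1 : ℕ) : ℝ))))) ≤ T := by
    refine le_trans ?_ hT
    push_cast
    exact mul_le_mul_of_nonneg_right (le_max_left _ _) (by linarith)
  have hX' : Real.exp (2 * h * Real.log (‖tc q‖ * (k + ((1 : ℕ) : ℝ) + T))) ≤
      ‖tc q‖ ^ 2 * ((1 : ℕ) : ℝ) * T := by
    push_cast
    rw [mul_one]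
    exact hX
  obtain ⟨r0, r1, -, r3⟩ := H q k 1 T hq hk le_rfl hT' hX'
  rw [SN_eq pr hq, SS_eq pr hq] at r1
  rw [SN_eq pr hq] at r3
  have hN0 : (0 : ℝ) ≤ (SN pr q k T : ℝ) := Nat.cast_nonneg _
  refine ⟨?_, ?_⟩
  · refine le_trans ?_ r1
    have := min_le_left ε (1 / 2)
    exact mul_le_mul_of_nonneg_right (by linarith) hN0
  · refine le_trans ?_ r3
    have hcard : ((Fam q k 1).card : ℝ) = (phiQ q : ℝ) / 4 := by
      rw [fam_one hq, Finset.card_map, card_FQk (nrm_two2 hq h2)]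
    rw [hcard]
    refine mul_le_mul_of_nonneg_right ?_ (by positivity)
    have hlog : 7 ≤ Real.log (‖tc q‖ * (k + ((1 : ℕ) : ℝ) + T)) := by
      rw [Real.le_log_iff_exp_le (by push_cast; positivity)]
      refine hTe.trans ?_
      push_cast
      nlinarith
    have hpi := Real.pi_lt_d2
    have hpi0 := Real.pi_pos
    have h5 : 1 / 2 ≤ 1 - min ε (1 / 2) := by
      have := min_le_right ε (1 / 2)
      linarith
    have h6 : 2 * T ≤ T / Real.pi * Real.log (‖tc q‖ * (k + ((1 : ℕ) : ℝ) + T)) := by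
      rw [div_mul_eq_mul_div, le_div_iff₀ hpi0]
      nlinarith
    calc T = 1 / 2 * (2 * T) := by ring
      _ ≤ _ := mul_le_mul h5 h6 (by positivity) (by linarith)

/-- all the degrees -/
theorem eg_finA (cd : (q : ZI) → MulChar (RQ q) ℂ → ZI)
    (pr : (q : ZI) → MulChar (RQ q) ℂ → (ZI →* ℂ))
    (hprim : ∀ (q : ZI) (_ : q ≠ 0) (χ : MulChar (RQ q) ℂ), PrimData q χ (cd q χ) (pr q χ))
    (h ε : ℝ) (hh : 1 / 2 < h) (hh1 : h ≤ 1) (hε : 0 < ε) :
    ∃ C0 : ℝ, 1 ≤ C0 ∧ ∀ (q : ZI) (g m : ℕ) (T : ℝ), q ≠ 0 → two2 ∣ q → 2 * m + 1 < 2 * g →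
      C0 * (1 + Real.sqrt (Real.log (‖tc q‖ *
        (((min (2 * m + 1) (2 * g - (2 * m + 1)) : ℕ) : ℝ) + 1)))) ≤ T →
      Real.exp (2 * h * Real.log (‖tc q‖ *
        (((min (2 * m + 1) (2 * g - (2 * m + 1)) : ℕ) : ℝ) + 1 + T))) ≤ ‖tc q‖ ^ 2 * T →
      (2 - (cH h + ε)) * ((∑ l ∈ Finset.range (m + 1), mu g m l *
        (SN pr q (2 * l + 1) T + SN pr (star q) (2 * l + 1) T) : ℕ) : ℝ) ≤
      ((∑ l ∈ Finset.range (m + 1), mu g m l *
        (SS pr q (2 * l + 1) T + SS pr (star q) (2 * l + 1) T) : ℕ) : ℝ) ∧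
      (((2 * g).choose (2 * m + 1) : ℕ) : ℝ) * ((phiQ q : ℝ) / 4) * T ≤
        ((∑ l ∈ Finset.range (m + 1), mu g m l *
        (SN pr q (2 * l + 1) T + SN pr (star q) (2 * l + 1) T) : ℕ) : ℝ) := by
  obtain ⟨C0, hC0, H⟩ := eg_k cd pr hprim h ε hh hh1 hε
  refine ⟨C0, hC0, ?_⟩
  intro q g m T hq h2 hm hT hX
  set n : ℕ := min (2 * m + 1) (2 * g - (2 * m + 1)) with hn
  have hQ1 := one_le_norm_tc hq
  have hq' : star q ≠ 0 := fun h => hq (by rw [← star_star q, h, star_zero])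
  have hns : ‖tc (star q)‖ = ‖tc q‖ := by
    have h1 := Pool.Agent.H304R3.HK.tc_star_mul q
    have h3 := Pool.Agent.H304R3.HK.tc_star_mul (star q)
    rw [Pool.Agent.H304R2.EC.A1.gnorm_star, ← h1] at h3
    exact (pow_left_inj₀ (norm_nonneg _) (norm_nonneg _) (by norm_num)).1 h3
  have hT1 : 1 ≤ T := by
    refine le_trans ?_ hT
    have := Real.sqrt_nonneg (Real.log (‖tc q‖ * ((n : ℝ) + 1)))
    nlinarith
  -- one degree
  have key : ∀ l ∈ Finset.range (m + 1), mu g m l ≠ 0 →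
      ((2 - (cH h + ε)) * ((SN pr q (2 * l + 1) T : ℝ) + (SN pr (star q) (2 * l + 1) T : ℝ)) ≤
        (SS pr q (2 * l + 1) T : ℝ) + (SS pr (star q) (2 * l + 1) T : ℝ)) ∧
      2 * (T * ((phiQ q : ℝ) / 4)) ≤
        (SN pr q (2 * l + 1) T : ℝ) + (SN pr (star q) (2 * l + 1) T : ℝ) := by
    intro l hl hmu
    rw [Finset.mem_range] at hl
    have hln : 2 * l + 1 ≤ n := by
      have h3 : m + 1 + l ≤ g := by
        by_contra hcon
        apply hmu
        unfold mu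
        rw [Nat.choose_eq_zero_of_lt (show g < m + 1 + l by omega), mul_zero]
      rw [hn, le_min_iff]
      omega
    have hln' : (((2 * l + 1 : ℕ)) : ℝ) ≤ n := by exact_mod_cast hln
    have hk0 : (0 : ℝ) ≤ ((2 * l + 1 : ℕ) : ℝ) := Nat.cast_nonneg _
    have hTk : C0 * (1 + Real.sqrt (Real.log (‖tc q‖ * (((2 * l + 1 : ℕ) : ℝ) + 1)))) ≤ T := by
      refine le_trans ?_ hT
      refine mul_le_mul_of_nonneg_left ?_ (by linarith)
      have := Real.sqrt_le_sqrt (Real.log_le_log (by positivity)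
        (show ‖tc q‖ * (((2 * l + 1 : ℕ) : ℝ) + 1) ≤ ‖tc q‖ * ((n : ℝ) + 1) from
          mul_le_mul_of_nonneg_left (by linarith) (by linarith)))
      linarith
    have hXk : Real.exp (2 * h * Real.log (‖tc q‖ * (((2 * l + 1 : ℕ) : ℝ) + 1 + T))) ≤
        ‖tc q‖ ^ 2 * T := by
      refine le_trans ?_ hX
      refine Real.exp_le_exp.mpr (mul_le_mul_of_nonneg_left ?_ (by linarith))
      refine Real.log_le_log (by positivity) ?_
      exact mul_le_mul_of_nonneg_left (by linarith) (by linarith)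
    obtain ⟨a1, a2⟩ := H q (2 * l + 1) T hq h2 (by omega) hTk hXk
    obtain ⟨b1, b2⟩ := H (star q) (2 * l + 1) T hq' (two_dvd_star h2) (by omega)
      (by rw [hns]; exact hTk) (by rw [hns]; exact hXk)
    rw [phiQ_star] at b2
    constructor
    · linarith
    · linarith
  constructor
  · push_cast
    rw [Finset.mul_sum]
    refine Finset.sum_le_sum fun l hl => ?_
    by_cases hmu : mu g m l = 0
    · rw [hmu]
      simp
    · have h3 := mul_le_mul_of_nonneg_left (key l hl hmu).1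
        (Nat.cast_nonneg (α := ℝ) (mu g m l))
      calc _ = (mu g m l : ℝ) * ((2 - (cH h + ε)) * ((SN pr q (2 * l + 1) T : ℝ) +
          (SN pr (star q) (2 * l + 1) T : ℝ))) := by ring
        _ ≤ _ := h3
  · rw [← sum_mu g m]
    push_cast
    have e1 : 2 * (∑ l ∈ Finset.range (m + 1), (mu g m l : ℝ)) * ((phiQ q : ℝ) / 4) * T =
        ∑ l ∈ Finset.range (m + 1), (mu g m l : ℝ) * (2 * (T * ((phiQ q : ℝ) / 4))) := by
      rw [← Finset.sum_mul]
      ring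
    rw [e1]
    refine Finset.sum_le_sum fun l hl => ?_
    by_cases hmu : mu g m l = 0
    · rw [hmu]
      simp
    · exact mul_le_mul_of_nonneg_left (key l hl hmu).2 (Nat.cast_nonneg (α := ℝ) (mu g m l))

end Pool.Agent.Y762.EG
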