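import Pool.Agent.Y762.EG.Weights

/-!
The zeros of the L-functions of the powers of `y² = x³ - x` over ray class fields: all the infinity
types together.
-/

set_option autoImplicit false
set_option maxHeartbeats 4000000

open Complex
open H370 (zset mult NN Nd Ns)
open H385 (ZI RQ im1 chiZ phiQ nrm)
open Pool.Agent.H304R3.HK (tc one_le_norm_tc)
open Pool.Agent.Y762 (cH)
open Pool.Agent.Y762.HK (PrimData Fam mem_Fam AllC mem_AllC card_k norm_tc_star)
open Pool.Agent.Y762.HP (FamP KO sum_KO hp_fin card_FamP)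
open Pool.Agent.W354.PK (LK)
open Pool.Agent.W354.HW (mu muW mm muW_wt)
open Pool.Agent.W164.RC (two2 two_dvd_star phiQ_star)

namespace Pool.Agent.Y762.EG

theorem sum_FamP (q : ZI) (J : ℕ) (f : ℕ × MulChar (RQ q) ℂ → ℝ) :
    ∑ x ∈ FamP q J, f x = ∑ l ∈ Finset.range J, ∑ χ ∈ FQk q (2 * l + 1), f (2 * l + 1, χ) := by
  classical
  unfold FamP FQk
  rw [Finset.sum_filter, Finset.sum_product, sum_KO]
  refine Finset.sum_congr rfl fun l _ => ?_
  rw [Finset.sum_filter]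

/-- the first `J` odd infinity types -/
theorem eg_J (cd : (q : ZI) → MulChar (RQ q) ℂ → ZI)
    (pr : (q : ZI) → MulChar (RQ q) ℂ → (ZI →* ℂ))
    (hprim : ∀ (q : ZI) (_ : q ≠ 0) (χ : MulChar (RQ q) ℂ), PrimData q χ (cd q χ) (pr q χ))
    (h ε : ℝ) (hh : 1 / 2 < h) (hh1 : h ≤ 1) (hε : 0 < ε) :
    ∃ C0 : ℝ, 1 ≤ C0 ∧ ∀ (q : ZI) (J : ℕ) (T : ℝ), q ≠ 0 → 4 < nrm q → 1 ≤ J →
      C0 * (1 + Real.sqrt (Real.log (‖tc q‖ * (1 + 2 * J)))) ≤ T →
      Real.exp (2 * h * Real.log (‖tc q‖ * (1 + 2 * J + T))) ≤ ‖tc q‖ ^ 2 * J * T →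
      (2 - (cH h + ε)) * ∑ l ∈ Finset.range J, (SN pr q (2 * l + 1) T : ℝ) ≤
        ∑ l ∈ Finset.range J, (SS pr q (2 * l + 1) T : ℝ) ∧
      (1 - ε) * (T / Real.pi * Real.log (‖tc q‖ * (1 + 2 * J + T))) * ((phiQ q : ℝ) * J / 4) ≤
        ∑ l ∈ Finset.range J, (SN pr q (2 * l + 1) T : ℝ) := by
  obtain ⟨C0, hC0, H⟩ := hp_fin cd pr hprim h ε hh hh1 hε
  refine ⟨C0, hC0, ?_⟩
  intro q J T hq hq4 hJ hT hX
  obtain ⟨r1, -, r3⟩ := H q J T hq hq4 hJ hT hX
  rw [sum_FamP, sum_FamP] at r1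
  rw [sum_FamP, card_FamP q hq4] at r3
  unfold SN SS
  push_cast
  exact ⟨r1, r3⟩

/-- both moduli -/
noncomputable def SN2 (pr : (q : ZI) → MulChar (RQ q) ℂ → (ZI →* ℂ)) (q : ZI) (T : ℝ) (l : ℕ) : ℝ :=
  (SN pr q (2 * l + 1) T : ℝ) + (SN pr (star q) (2 * l + 1) T : ℝ)

/-- both moduli -/
noncomputable def SS2 (pr : (q : ZI) → MulChar (RQ q) ℂ → (ZI →* ℂ)) (q : ZI) (T : ℝ) (l : ℕ) : ℝ :=
  (SS pr q (2 * l + 1) T : ℝ) + (SS pr (star q) (2 * l + 1) T : ℝ)

theorem nrm_star' (q : ZI) : nrm (star q) = nrm q := by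
  unfold nrm
  rw [Pool.Agent.H304R2.EC.A1.gnorm_star]

/-- the sum over all the weights -/
theorem sum_mu_eq (g m M : ℕ) (hm : m < g) (hM : mm g m + 1 ≤ M) (f : ℕ → ℝ) :
    ∑ l ∈ Finset.range (m + 1), (mu g m l : ℝ) * f l = ∑ l ∈ Finset.range M, muW g m l * f l := by
  have hz : ∀ l, mm g m < l → muW g m l = 0 := (muW_wt g m hm).zero
  have hmm : mm g m ≤ m := by unfold mm; omega
  have e1 : ∑ l ∈ Finset.range (m + 1), (mu g m l : ℝ) * f l =
      ∑ l ∈ Finset.range (m + 1), muW g m l * f l := by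
    refine Finset.sum_congr rfl fun l hl => ?_
    unfold muW
    rw [if_pos (by have := Finset.mem_range.mp hl; omega)]
  rw [e1]
  have e2 : ∀ M, mm g m + 1 ≤ M → ∑ l ∈ Finset.range M, muW g m l * f l =
      ∑ l ∈ Finset.range (mm g m + 1), muW g m l * f l := by
    intro M hM
    symm
    refine Finset.sum_subset (Finset.range_mono hM) (fun l _ hl => ?_)
    rw [Finset.mem_range, not_lt] at hl
    rw [hz l (by omega), zero_mul]
  rw [e2 (m + 1) (by omega), e2 M hM]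

theorem sqrt_add' (a b : ℝ) (ha : 0 ≤ a) (hb : 0 ≤ b) :
    Real.sqrt (a + b) ≤ Real.sqrt a + Real.sqrt b := by
  rw [Real.sqrt_le_left (by positivity)]
  have h1 := Real.sq_sqrt ha
  have h2 := Real.sq_sqrt hb
  have h3 := mul_nonneg (Real.sqrt_nonneg a) (Real.sqrt_nonneg b)
  nlinarith

/-- the conditions for one `J` -/
theorem cond_J (C0 D κ h h' Q S T Nn : ℝ) (hC0 : 1 ≤ C0) (hD : 2 ≤ D) (hκ0 : 0 < κ)
    (hh' : 1 / 2 < h') (hlt : h' < h) (hh1 : h ≤ 1) (hQ : 1 ≤ Q) (hS : 1 ≤ S) (hSN : S ≤ Nn)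
    (hT1 : C0 * (1 + Real.sqrt (Real.log (5 * D))) * (1 + Real.sqrt (Real.log (Q ^ 2 * Nn))) ≤ T)
    (hT2 : Real.exp (Real.log (800 * D ^ 2 / κ) / (2 * (h - h'))) ≤ T)
    (hX : Real.exp (2 * h * Real.log (Q * (S + T))) ≤ Q ^ 2 * (2 * S) * T)
    (J : ℕ) (hJ1 : κ * S / 16 ≤ J) (hJ2 : (J : ℝ) ≤ 2 * (D * S)) :
    C0 * (1 + Real.sqrt (Real.log (Q * (1 + 2 * J)))) ≤ T ∧
    Real.exp (2 * h' * Real.log (Q * (1 + 2 * J + T))) ≤ Q ^ 2 * J * T := by
  have hT0 : 0 < T := (Real.exp_pos _).trans_le hT2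
  have hJ0 : (0 : ℝ) ≤ J := Nat.cast_nonneg J
  have hDS : 2 ≤ D * S := by nlinarith
  have hJ5 : 1 + 2 * (J : ℝ) ≤ 5 * (D * S) := by linarith
  have hlD : 0 ≤ Real.log (5 * D) := Real.log_nonneg (by linarith)
  have hN1 : 1 ≤ Nn := hS.trans hSN
  have hlN : 0 ≤ Real.log (Q ^ 2 * Nn) := Real.log_nonneg (by nlinarith [one_le_pow₀ hQ (n := 2)])
  constructor
  · refine le_trans ?_ hT1
    rw [mul_assoc]
    refine mul_le_mul_of_nonneg_left ?_ (by linarith)
    have h1 : Real.log (Q * (1 + 2 * J)) ≤ Real.log (5 * D) + Real.log (Q ^ 2 * Nn) := by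
      rw [← Real.log_mul (by positivity) (by positivity)]
      refine Real.log_le_log (by positivity) ?_
      calc Q * (1 + 2 * J) ≤ Q * (5 * (D * S)) := mul_le_mul_of_nonneg_left hJ5 (by linarith)
        _ ≤ Q ^ 2 * (5 * (D * Nn)) := by
            refine mul_le_mul (by nlinarith) ?_ (by positivity) (by positivity)
            gcongr
        _ = _ := by ring
    have h2 : Real.sqrt (Real.log (Q * (1 + 2 * J))) ≤
        Real.sqrt (Real.log (5 * D)) + Real.sqrt (Real.log (Q ^ 2 * Nn)) :=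
      (Real.sqrt_le_sqrt h1).trans (sqrt_add' _ _ hlD hlN)
    have h3 := Real.sqrt_nonneg (Real.log (5 * D))
    have h4 := Real.sqrt_nonneg (Real.log (Q ^ 2 * Nn))
    have h5 := mul_nonneg h3 h4
    nlinarith
  · set Z : ℝ := Q * (S + T) with hZ
    have hZT : T ≤ Z := by
      rw [hZ]
      nlinarith
    have hZ0 : 0 < Z := by linarith
    have hlog : Real.log (Q * (1 + 2 * J + T)) ≤ Real.log (5 * D) + Real.log Z := by
      rw [← Real.log_mul (by positivity) hZ0.ne']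
      refine Real.log_le_log (by positivity) ?_
      have h1 : 1 + 2 * (J : ℝ) + T ≤ 5 * D * (S + T) := by nlinarith
      calc Q * (1 + 2 * J + T) ≤ Q * (5 * D * (S + T)) :=
            mul_le_mul_of_nonneg_left h1 (by linarith)
        _ = _ := by rw [hZ]; ring
    have hd : 0 < 2 * (h - h') := by linarith
    have hkey : Real.log (800 * D ^ 2 / κ) ≤ 2 * (h - h') * Real.log Z := by
      have h1 : Real.log (800 * D ^ 2 / κ) / (2 * (h - h')) ≤ Real.log Z := by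
        rw [Real.le_log_iff_exp_le hZ0]
        exact hT2.trans hZT
      rw [div_le_iff₀ hd] at h1
      linarith
    have h800 : 0 < 800 * D ^ 2 / κ := by positivity
    have hE : Real.exp (2 * h' * Real.log (Q * (1 + 2 * J + T))) ≤
        Real.exp (2 * Real.log (5 * D)) * (Real.exp (2 * h * Real.log Z) *
          Real.exp (-(Real.log (800 * D ^ 2 / κ)))) := by
      rw [← Real.exp_add, ← Real.exp_add]
      apply Real.exp_le_exp.mpr
      have h1 : 2 * h' * Real.log (Q * (1 + 2 * J + T)) ≤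
          2 * h' * (Real.log (5 * D) + Real.log Z) :=
        mul_le_mul_of_nonneg_left hlog (by linarith)
      have h2 : 2 * h' * Real.log (5 * D) ≤ 2 * Real.log (5 * D) :=
        mul_le_mul_of_nonneg_right (by linarith) hlD
      linarith
    refine hE.trans ?_
    have e1 : Real.exp (2 * Real.log (5 * D)) = 25 * D ^ 2 := by
      have : Real.exp (2 * Real.log (5 * D)) = Real.exp (Real.log (5 * D)) ^ 2 := by
        rw [← Real.exp_nat_mul]
        norm_num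
      rw [this, Real.exp_log (by positivity)]
      ring
    have e2 : Real.exp (-(Real.log (800 * D ^ 2 / κ))) = κ / (800 * D ^ 2) := by
      rw [Real.exp_neg, Real.exp_log h800, inv_div]
    rw [e1, e2]
    calc 25 * D ^ 2 * (Real.exp (2 * h * Real.log Z) * (κ / (800 * D ^ 2))) ≤
        25 * D ^ 2 * ((Q ^ 2 * (2 * S) * T) * (κ / (800 * D ^ 2))) := by gcongr
      _ = Q ^ 2 * (κ * S / 16) * T := by
          field_simp
          ring
      _ ≤ _ := by gcongr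

/-- the logarithms -/
theorem log_M (D Q S T x : ℝ) (J3 : ℕ) (hD : 2 ≤ D) (hQ : 1 ≤ Q) (hS : 1 ≤ S) (hJ3 : S / 8 ≤ J3)
    (hT : 96 * D ≤ T) (hx0 : 0 < x) (hx : x ≤ 6 * D * S ^ 2 + 2 * T) :
    Real.log (Q * x) ≤ 4 * Real.log (Q * (1 + 2 * J3 + T)) := by
  have hT0 : 0 < T := by linarith
  set P : ℝ := Q * (1 + 2 * J3 + T) with hP
  have hJ0 : (0 : ℝ) ≤ J3 := Nat.cast_nonneg J3
  have hP1 : Q * (S + T) ≤ 4 * P := by
    rw [hP]
    have h1 : S + T ≤ 4 * (1 + 2 * (J3 : ℝ) + T) := by linarith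
    calc Q * (S + T) ≤ Q * (4 * (1 + 2 * (J3 : ℝ) + T)) :=
          mul_le_mul_of_nonneg_left h1 (by linarith)
      _ = _ := by ring
  have hPT : T ≤ P := by
    rw [hP]
    nlinarith
  have hP0 : 0 < P := by linarith
  have h1 : Q * x ≤ P ^ 4 := by
    have h2 : x ≤ 6 * D * (S + T) ^ 2 := by
      have a1 : 2 * T ≤ 6 * D * T := by nlinarith
      have a2 : T ≤ T ^ 2 := by nlinarith
      have a3 : 6 * D * T ≤ 6 * D * T ^ 2 := mul_le_mul_of_nonneg_left a2 (by linarith)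
      have a4 : 0 ≤ 6 * D * (2 * S * T) := by positivity
      have a5 : 6 * D * (S + T) ^ 2 = 6 * D * S ^ 2 + 6 * D * (2 * S * T) + 6 * D * T ^ 2 := by ring
      linarith
    have h3 : Q * (S + T) ^ 2 ≤ (Q * (S + T)) ^ 2 := by
      have : Q ≤ Q ^ 2 := by nlinarith
      calc Q * (S + T) ^ 2 ≤ Q ^ 2 * (S + T) ^ 2 :=
            mul_le_mul_of_nonneg_right this (by positivity)
        _ = _ := by ring
    have h4 : (Q * (S + T)) ^ 2 ≤ (4 * P) ^ 2 := pow_le_pow_left₀ (by positivity) hP1 2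
    calc Q * x ≤ Q * (6 * D * (S + T) ^ 2) := mul_le_mul_of_nonneg_left h2 (by linarith)
      _ = 6 * D * (Q * (S + T) ^ 2) := by ring
      _ ≤ 6 * D * (4 * P) ^ 2 := mul_le_mul_of_nonneg_left (h3.trans h4) (by linarith)
      _ = 96 * D * P ^ 2 := by ring
      _ ≤ P * P ^ 2 := mul_le_mul_of_nonneg_right (hT.trans hPT) (by positivity)
      _ ≤ P * P ^ 2 * P := le_mul_of_one_le_right (by positivity) (by linarith)
      _ = P ^ 4 := by ring
  calc Real.log (Q * x) ≤ Real.log (P ^ 4) := Real.log_le_log (by positivity) h1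
    _ = 4 * Real.log P := by
      rw [Real.log_pow]
      push_cast
      ring

end Pool.Agent.Y762.EG
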