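import Pool.Agent.Y762.EG.FinB

/-!
The zeros of the L-functions of the powers of `y² = x³ - x` over ray class fields: the weighted
count over all the infinity types.
-/

set_option autoImplicit false
set_option maxHeartbeats 4000000

open Complex Finset
open Pool.Agent.W354.FK (Wt)

namespace Pool.Agent.Y762.EG

/-- the weighted inequality from the inequalities for the first `J` -/
theorem wcore (m' : ℕ) (w N G : ℕ → ℝ) (hw : Wt m' w) (hN : ∀ l, 0 ≤ N l) (hG : ∀ l, 0 ≤ G l)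
    (S Q T C1 D Φ c e : ℝ) (hS2 : S ^ 2 = (m' : ℝ) + 1) (hS0 : 0 ≤ S) (hQ : 1 ≤ Q)
    (hC1 : 1 ≤ C1) (he0 : 0 < e) (he1 : e ≤ 1) (hΦ : 0 < Φ) (hD2 : 2 ≤ D)
    (hD : 4096 * C1 / e ≤ D) (hT : 96 * D ≤ T)
    (hNB : ∀ l : ℕ, N l ≤ C1 * T * Φ * Real.log (Q * (2 * (l : ℝ) + 1 + 2 * T)))
    (hGN : ∀ l, G l ≤ N l)
    (hJ : ∀ J : ℕ, 1 ≤ J → e / (256 * C1) * S / 16 ≤ J → (J : ℝ) ≤ 2 * (D * S) →
      (c + e) * ∑ l ∈ range J, N l ≤ ∑ l ∈ range J, G l ∧
      J * Φ * (T / 8) * Real.log (Q * (1 + 2 * J + T)) ≤ ∑ l ∈ range J, N l) :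
    c * ∑ l ∈ range (m' + 1 + ⌈D * S⌉₊), w l * N l ≤
      ∑ l ∈ range (m' + 1 + ⌈D * S⌉₊), w l * G l := by
  have hm0 : (0 : ℝ) ≤ m' := Nat.cast_nonneg m'
  have hS1 : 1 ≤ S := by
    by_contra hcon
    push Not at hcon
    nlinarith
  have hT0 : 0 < T := by linarith
  have hC0 : 0 < C1 := by linarith
  have hD0 : 0 < D := by linarith
  have hκ0 : 0 < e / (256 * C1) := by positivity
  have hκ1 : e / (256 * C1) ≤ 1 := by
    rw [div_le_one (by positivity)]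
    linarith
  have hDe : 4096 * C1 ≤ D * e := by
    rwa [div_le_iff₀ he0] at hD
  have hDS : 2 * S ≤ D * S := mul_le_mul_of_nonneg_right hD2 hS0
  set κ : ℝ := e / (256 * C1) with hκ
  set J3 : ℕ := ⌊S / 8⌋₊ + 1 with hJ3
  set J1 : ℕ := ⌊κ * J3⌋₊ with hJ1
  set J2 : ℕ := ⌈D * S⌉₊ with hJ2
  have hJ3a : S / 8 ≤ (J3 : ℝ) := by
    rw [hJ3]
    push_cast
    exact (Nat.lt_floor_add_one _).le
  have hJ3b : (J3 : ℝ) ≤ S / 8 + 1 := by
    rw [hJ3]
    push_cast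
    linarith [Nat.floor_le (show 0 ≤ S / 8 by positivity)]
  have hJ31 : 1 ≤ J3 := by rw [hJ3]; omega
  have hJ31' : (1 : ℝ) ≤ J3 := by exact_mod_cast hJ31
  have hJ2a : D * S ≤ (J2 : ℝ) := Nat.le_ceil _
  have hJ2b : (J2 : ℝ) ≤ D * S + 1 := (Nat.ceil_lt_add_one (by positivity)).le
  have h32 : J3 ≤ J2 := by
    have : (J3 : ℝ) ≤ J2 := by linarith
    exact_mod_cast this
  have hJ1a : (J1 : ℝ) ≤ κ * J3 := Nat.floor_le (by positivity)
  have h13 : J1 ≤ J3 := by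
    have h1 : κ * (J3 : ℝ) ≤ 1 * J3 := mul_le_mul_of_nonneg_right hκ1 (by linarith)
    have : (J1 : ℝ) ≤ J3 := by linarith
    exact_mod_cast this
  have hJ1b : κ * J3 < J1 + 1 := Nat.lt_floor_add_one _
  -- the logarithm
  set ℓ : ℝ := Real.log (Q * (1 + 2 * J3 + T)) with hℓ
  have hℓ0 : 0 < ℓ := by
    rw [hℓ]
    apply Real.log_pos
    nlinarith
  -- the value at `J3`
  have hJ3c : κ * S / 16 ≤ (J3 : ℝ) := by
    have : κ * S ≤ 1 * S := mul_le_mul_of_nonneg_right hκ1 hS0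
    linarith
  obtain ⟨c1, c2⟩ := hJ J3 hJ31 hJ3c (by linarith)
  have hX0 : 0 < J3 * Φ * (T / 8) * ℓ := by positivity
  have hce : c + e ≤ 1 := by
    have h1 : ∑ l ∈ range J3, G l ≤ ∑ l ∈ range J3, N l := Finset.sum_le_sum fun l _ => hGN l
    have h2 : 0 < ∑ l ∈ range J3, N l := hX0.trans_le c2
    by_contra hcon
    push Not at hcon
    have h3 := mul_lt_mul_of_pos_right hcon h2
    linarith
  refine weighted2 w G N c e (C1 * T * Φ * (4 * ℓ)) (J3 * Φ * (T / 8) * ℓ) J1 J2 J3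
    (m' + 1 + J2) hw.anti hw.nn h13 h32 he0.le hce (by positivity) hG hN ?_ (by omega) ?_ c2 ?_ ?_ ?_
  · intro l hl
    refine (hNB l).trans ?_
    refine mul_le_mul_of_nonneg_left ?_ (by positivity)
    refine log_M D Q S T _ J3 hD2 hQ hS1 hJ3a hT (by positivity) ?_
    have hl' : (l : ℝ) ≤ m' + J2 := by
      have : l ≤ m' + J2 := by omega
      exact_mod_cast this
    have h1 : S ≤ S ^ 2 := by nlinarith
    have h2 : D * S ≤ D * S ^ 2 := mul_le_mul_of_nonneg_left h1 hD0.le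
    have h3 : 2 * S ^ 2 ≤ D * S ^ 2 := mul_le_mul_of_nonneg_right hD2 (by positivity)
    have h4 : 1 ≤ S ^ 2 := by nlinarith
    linarith
  · intro J hJa hJb
    rcases Nat.eq_zero_or_pos J with h0 | h0
    · rw [h0]
      simp
    · refine (hJ J h0 ?_ ?_).1
      · have h1 : (J1 : ℝ) ≤ J := by exact_mod_cast hJa
        have h2 : (1 : ℝ) ≤ J := by exact_mod_cast h0
        have h3 : κ * (S / 8) ≤ κ * J3 := mul_le_mul_of_nonneg_left hJ3a hκ0.le
        linarith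
      · have h1 : (J : ℝ) ≤ J2 := by exact_mod_cast hJb
        linarith
  · intro l hl
    apply hw.low
    have h1 : (l : ℝ) ≤ S / 8 := by
      have h2 : l ≤ ⌊S / 8⌋₊ := by omega
      exact (Nat.le_floor_iff (by positivity)).1 h2
    rcases Nat.eq_zero_or_pos l with h0 | h0
    · rw [h0]
      simp
    · have h2 : (1 : ℝ) ≤ l := by exact_mod_cast h0
      have h3 : (l : ℝ) ^ 2 ≤ (S / 8) ^ 2 := pow_le_pow_left₀ (by linarith) h1 2
      have h4 : (l : ℝ) ^ 2 ≤ ((m' : ℝ) + 1) / 64 := by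
        rw [← hS2]
        linarith
      have h5 : (1 : ℝ) ≤ (l : ℝ) ^ 2 := by nlinarith
      have h6 : (16 : ℝ) * (l : ℝ) ^ 2 ≤ m' := by linarith
      exact_mod_cast h6
  · calc (J1 : ℝ) * (C1 * T * Φ * (4 * ℓ)) ≤ (κ * J3) * (C1 * T * Φ * (4 * ℓ)) :=
          mul_le_mul_of_nonneg_right hJ1a (by positivity)
      _ = e / 8 * (J3 * Φ * (T / 8) * ℓ) := by
          rw [hκ]
          field_simp
          norm_num
  · have h1 : ∑ l ∈ Ico J2 (m' + 1 + J2), w l ≤ 2 * S / D * w 0 := by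
      calc ∑ l ∈ Ico J2 (m' + 1 + J2), w l ≤
          ∑ l ∈ Ico J2 (m' + 1 + J2), Real.exp (-(l : ℝ) ^ 2 / (2 * S ^ 2)) * w 0 := by
            refine Finset.sum_le_sum fun l _ => ?_
            refine (hw.up l).trans (le_of_eq ?_)
            rw [hS2]
            ring_nf
        _ = (∑ l ∈ Ico J2 (m' + 1 + J2), Real.exp (-(l : ℝ) ^ 2 / (2 * S ^ 2))) * w 0 := by
            rw [Finset.sum_mul]
        _ ≤ _ := mul_le_mul_of_nonneg_right (gauss_tail S D J2 _ hS1 hD2 hJ2a) (hw.nn 0)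
    have hw0 := hw.nn 0
    calc (∑ l ∈ Ico J2 (m' + 1 + J2), w l) * (C1 * T * Φ * (4 * ℓ)) ≤
        (2 * S / D * w 0) * (C1 * T * Φ * (4 * ℓ)) :=
          mul_le_mul_of_nonneg_right h1 (by positivity)
      _ = (S * Φ * T * ℓ * w 0 / (512 * D)) * (4096 * C1) := by
          field_simp
          ring
      _ ≤ (S * Φ * T * ℓ * w 0 / (512 * D)) * (D * e) :=
          mul_le_mul_of_nonneg_left hDe (by positivity)
      _ = e / 8 * ((S / 8) * Φ * (T / 8) * ℓ) * w 0 := by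
          field_simp
          norm_num
      _ ≤ _ := by gcongr

end Pool.Agent.Y762.EG
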