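import Pool.Agent.Y762.EG.FinC

/-!
The zeros of the L-functions of the powers of `y² = x³ - x` over ray class fields: all the degrees,
all the conductors and all the heights.
-/

set_option autoImplicit false
set_option maxHeartbeats 4000000

open Complex
open H370 (zset mult NN Nd Ns)
open H385 (ZI RQ im1 chiZ phiQ nrm)
open Pool.Agent.H304R3.HK (tc one_le_norm_tc)
open Pool.Agent.Y762 (cH)
open Pool.Agent.Y762.HK (PrimData)
open Pool.Agent.W354.PK (LK)
open Pool.Agent.W354.HW (mu muW mm muW_wt)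
open Pool.Agent.W164.RC (two2 two_dvd_star phiQ_star)

namespace Pool.Agent.Y762.EG

theorem norm_star' (q : ZI) : ‖tc (star q)‖ = ‖tc q‖ := by
  have h1 := Pool.Agent.H304R3.HK.tc_star_mul q
  have h3 := Pool.Agent.H304R3.HK.tc_star_mul (star q)
  rw [Pool.Agent.H304R2.EC.A1.gnorm_star, ← h1] at h3
  exact (pow_left_inj₀ (norm_nonneg _) (norm_nonneg _) (by norm_num)).1 h3

/-- all the degrees, all the conductors and all the heights -/
theorem eg_finB (cd : (q : ZI) → MulChar (RQ q) ℂ → ZI)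
    (pr : (q : ZI) → MulChar (RQ q) ℂ → (ZI →* ℂ))
    (hprim : ∀ (q : ZI) (_ : q ≠ 0) (χ : MulChar (RQ q) ℂ), PrimData q χ (cd q χ) (pr q χ))
    (h ε : ℝ) (hh : 1 / 2 < h) (hh1 : h ≤ 1) (hε : 0 < ε) :
    ∃ C0 : ℝ, 1 ≤ C0 ∧ ∀ (q : ZI) (g m : ℕ) (T : ℝ), q ≠ 0 → two2 ∣ q → 2 * m + 1 < 2 * g →
      C0 * (1 + Real.sqrt (Real.log (‖tc q‖ ^ 2 *
        ((min (2 * m + 1) (2 * g - (2 * m + 1)) : ℕ) : ℝ)))) ≤ T →
      Real.exp (2 * h * Real.log (‖tc q‖ *
        (Real.sqrt ((min (2 * m + 1) (2 * g - (2 * m + 1)) : ℕ) : ℝ) + T))) ≤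
        ‖tc q‖ ^ 2 * Real.sqrt ((min (2 * m + 1) (2 * g - (2 * m + 1)) : ℕ) : ℝ) * T →
      (2 - (cH h + ε)) * ((∑ l ∈ Finset.range (m + 1), mu g m l *
        (SN pr q (2 * l + 1) T + SN pr (star q) (2 * l + 1) T) : ℕ) : ℝ) ≤
      ((∑ l ∈ Finset.range (m + 1), mu g m l *
        (SS pr q (2 * l + 1) T + SS pr (star q) (2 * l + 1) T) : ℕ) : ℝ) ∧
      (((2 * g).choose (2 * m + 1) : ℕ) : ℝ) * ((phiQ q : ℝ) / 4) * T ≤
        ((∑ l ∈ Finset.range (m + 1), mu g m l *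
        (SN pr q (2 * l + 1) T + SN pr (star q) (2 * l + 1) T) : ℕ) : ℝ) := by
  obtain ⟨h', hh'1, hh'2, hcc⟩ := exists_smaller h (ε / 8) hh hh1 (by positivity)
  obtain ⟨CJ, hCJ, HJ⟩ := eg_J cd pr hprim h' (min (ε / 8) (1 / 2)) hh'1 (by linarith)
    (lt_min (by positivity) (by norm_num))
  obtain ⟨C1, hC1, Hup⟩ := up_k cd pr hprim
  obtain ⟨CL, hCL, Hlow⟩ := low_k cd pr hprim
  obtain ⟨ε', hε'⟩ : ∃ ε' : ℝ, ε' = min (ε / 8) (1 / 2) := ⟨_, rfl⟩
  rw [← hε'] at HJ
  have hε'1 : ε' ≤ ε / 8 := by rw [hε']; exact min_le_left _ _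
  have hε'2 : ε' ≤ 1 / 2 := by rw [hε']; exact min_le_right _ _
  obtain ⟨e, hed⟩ : ∃ e : ℝ, e = min (ε / 2) 1 := ⟨_, rfl⟩
  have he0 : 0 < e := by rw [hed]; exact lt_min (by positivity) (by norm_num)
  have he1 : e ≤ 1 := by rw [hed]; exact min_le_right _ _
  have he2 : e ≤ ε / 2 := by rw [hed]; exact min_le_left _ _
  obtain ⟨D, hDd⟩ : ∃ D : ℝ, D = max 2 (4096 * C1 / e) := ⟨_, rfl⟩
  have hD2 : 2 ≤ D := by rw [hDd]; exact le_max_left _ _
  have hDe : 4096 * C1 / e ≤ D := by rw [hDd]; exact le_max_right _ _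
  obtain ⟨κ, hκd⟩ : ∃ κ : ℝ, κ = e / (256 * C1) := ⟨_, rfl⟩
  have hκ0 : 0 < κ := by rw [hκd]; positivity
  have hsD := Real.sqrt_nonneg (Real.log (5 * D))
  have hexp := Real.exp_pos (Real.log (800 * D ^ 2 / κ) / (2 * (h - h')))
  have hCJs : 0 ≤ CJ * (1 + Real.sqrt (Real.log (5 * D))) := by positivity
  refine ⟨CJ * (1 + Real.sqrt (Real.log (5 * D))) +
    Real.exp (Real.log (800 * D ^ 2 / κ) / (2 * (h - h'))) + 96 * D + 2 * CL + 3, by linarith, ?_⟩
  intro q g m T hq h2 hm hT hX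
  have hmg : m < g := by omega
  obtain ⟨n, hn⟩ : ∃ n : ℕ, n = min (2 * m + 1) (2 * g - (2 * m + 1)) := ⟨_, rfl⟩
  rw [← hn] at hT hX
  have hnm : n = 2 * mm g m + 1 := by rw [hn]; unfold mm; omega
  obtain ⟨m', hm'⟩ : ∃ m' : ℕ, m' = mm g m := ⟨_, rfl⟩
  rw [← hm'] at hnm
  have hnR : (n : ℝ) = 2 * m' + 1 := by rw [hnm]; push_cast; ring
  have hm0 : (0 : ℝ) ≤ m' := Nat.cast_nonneg m'
  have hQ1 := one_le_norm_tc hq
  have hq' : star q ≠ 0 := fun h => hq (by rw [← star_star q, h, star_zero])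
  have hns : ‖tc (star q)‖ = ‖tc q‖ := norm_star' q
  have hq4 : 4 < nrm q := nrm_two2 hq h2
  have hq4' : 4 < nrm (star q) := by rw [nrm_star']; exact hq4
  obtain ⟨Q, hQd⟩ : ∃ Q : ℝ, Q = ‖tc q‖ := ⟨_, rfl⟩
  rw [← hQd] at hT hX hQ1 hns
  -- the size of `T`
  have hsn := Real.sqrt_nonneg (Real.log (Q ^ 2 * n))
  have hTX : ∀ x : ℝ, 0 ≤ x → x ≤ CJ * (1 + Real.sqrt (Real.log (5 * D))) +
    Real.exp (Real.log (800 * D ^ 2 / κ) / (2 * (h - h'))) + 96 * D + 2 * CL + 3 →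
      x * (1 + Real.sqrt (Real.log (Q ^ 2 * n))) ≤ T := fun x _ hx2 =>
    (mul_le_mul_of_nonneg_right hx2 (by linarith)).trans hT
  have hTY : ∀ x : ℝ, 0 ≤ x → x ≤ CJ * (1 + Real.sqrt (Real.log (5 * D))) +
    Real.exp (Real.log (800 * D ^ 2 / κ) / (2 * (h - h'))) + 96 * D + 2 * CL + 3 → x ≤ T := by
    intro x hx1 hx2
    have := hTX x hx1 hx2
    nlinarith [mul_nonneg hx1 hsn]
  have hT1 := hTX (CJ * (1 + Real.sqrt (Real.log (5 * D)))) (by linarith) (by linarith)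
  have hT2 := hTY (Real.exp (Real.log (800 * D ^ 2 / κ) / (2 * (h - h')))) (by linarith)
    (by linarith)
  have hT3 := hTY (96 * D) (by linarith) (by linarith)
  have hT4 := hTX (2 * CL) (by linarith) (by linarith)
  have hT5 := hTY 3 (by norm_num) (by linarith)
  have hT0 : 0 < T := by linarith
  -- the scale
  obtain ⟨S, hSd⟩ : ∃ S : ℝ, S = Real.sqrt ((m' : ℝ) + 1) := ⟨_, rfl⟩
  have hS0 : 0 ≤ S := by rw [hSd]; exact Real.sqrt_nonneg _
  have hS2 : S ^ 2 = (m' : ℝ) + 1 := by rw [hSd]; exact Real.sq_sqrt (by linarith)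
  have hS1 : 1 ≤ S := by
    by_contra hcon
    push Not at hcon
    nlinarith
  have hSn : S ≤ Real.sqrt n := by
    rw [hSd, hnR]
    exact Real.sqrt_le_sqrt (by linarith)
  have hSn2 : Real.sqrt n ≤ 2 * S := by
    rw [Real.sqrt_le_left (by positivity), hnR]
    nlinarith
  have hSN : S ≤ n := by
    rw [hnR]
    nlinarith
  have hXS : Real.exp (2 * h * Real.log (Q * (S + T))) ≤ Q ^ 2 * (2 * S) * T := by
    calc Real.exp (2 * h * Real.log (Q * (S + T))) ≤
        Real.exp (2 * h * Real.log (Q * (Real.sqrt n + T))) := by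
          refine Real.exp_le_exp.mpr (mul_le_mul_of_nonneg_left ?_ (by linarith))
          refine Real.log_le_log (by positivity) ?_
          exact mul_le_mul_of_nonneg_left (by linarith) (by linarith)
      _ ≤ Q ^ 2 * Real.sqrt n * T := hX
      _ ≤ _ := by gcongr
  have hφ0 : (0 : ℝ) < phiQ q := by
    obtain ⟨-, hφ, -⟩ := H385.fq_finite q hq
    exact_mod_cast hφ
  -- the lower bound
  have hlowl : ∀ l ∈ Finset.range (m + 1), mu g m l ≠ 0 →
      2 * (T * ((phiQ q : ℝ) / 4)) ≤ SN2 pr q T l := by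
    intro l hl hmu
    rw [Finset.mem_range] at hl
    have hln : 2 * l + 1 ≤ n := by
      have h3 : m + 1 + l ≤ g := by
        by_contra hcon
        apply hmu
        unfold mu
        rw [Nat.choose_eq_zero_of_lt (show g < m + 1 + l by omega), mul_zero]
      rw [hn, le_min_iff]
      omega
    have hln' : (((2 * l + 1 : ℕ)) : ℝ) ≤ n := by exact_mod_cast hln
    have hk0 : (0 : ℝ) ≤ ((2 * l + 1 : ℕ) : ℝ) := Nat.cast_nonneg _
    have hn1 : (1 : ℝ) ≤ n := by rw [hnR]; linarith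
    have hTk : CL * (1 + Real.sqrt (Real.log (Q * (((2 * l + 1 : ℕ) : ℝ) + 1)))) ≤ T := by
      refine le_trans ?_ hT4
      have hl1 : 0 ≤ Real.log (Q ^ 2 * n) :=
        Real.log_nonneg (by nlinarith [one_le_pow₀ hQ1 (n := 2)])
      have e1 : Real.log (Q * (((2 * l + 1 : ℕ) : ℝ) + 1)) ≤ 1 + Real.log (Q ^ 2 * n) := by
        have e2 : Real.log 2 ≤ 1 := by linarith [Real.log_two_lt_d9]
        have e3 : Real.log (Q * (((2 * l + 1 : ℕ) : ℝ) + 1)) ≤ Real.log (2 * (Q ^ 2 * n)) := by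
          refine Real.log_le_log (by positivity) ?_
          calc Q * (((2 * l + 1 : ℕ) : ℝ) + 1) ≤ Q ^ 2 * (2 * (n : ℝ)) :=
                mul_le_mul (by nlinarith) (by linarith) (by positivity) (by positivity)
            _ = 2 * (Q ^ 2 * (n : ℝ)) := by ring
        have e5 : Real.log (2 * (Q ^ 2 * (n : ℝ))) = Real.log 2 + Real.log (Q ^ 2 * (n : ℝ)) :=
          Real.log_mul (by norm_num) (by positivity)
        rw [e5] at e3
        linarith
      have e4 : Real.sqrt (Real.log (Q * (((2 * l + 1 : ℕ) : ℝ) + 1))) ≤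
          1 + Real.sqrt (Real.log (Q ^ 2 * n)) := by
        refine (Real.sqrt_le_sqrt e1).trans ((sqrt_add' _ _ (by norm_num) hl1).trans ?_)
        rw [Real.sqrt_one]
      calc CL * (1 + Real.sqrt (Real.log (Q * (((2 * l + 1 : ℕ) : ℝ) + 1)))) ≤
          CL * (1 + (1 + Real.sqrt (Real.log (Q ^ 2 * n)))) :=
            mul_le_mul_of_nonneg_left (by linarith) (by linarith)
        _ ≤ CL * (2 * (1 + Real.sqrt (Real.log (Q ^ 2 * n)))) :=
            mul_le_mul_of_nonneg_left (by linarith) (by linarith)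
        _ = _ := by ring
    have a1 := Hlow q (2 * l + 1) T hq hq4 (by omega) (by rw [← hQd]; exact hTk)
    have a2 := Hlow (star q) (2 * l + 1) T hq' hq4' (by omega) (by rw [hns]; exact hTk)
    rw [phiQ_star] at a2
    unfold SN2
    linarith
  constructor
  · have key := wcore m' (muW g m) (SN2 pr q T) (SS2 pr q T) (by rw [hm']; exact muW_wt g m hmg)
      (fun l => by unfold SN2; positivity) (fun l => by unfold SS2; positivity)
      S Q T C1 D ((phiQ q : ℝ) / 2) (2 - (cH h + ε)) e hS2 hS0 hQ1 hC1 he0 he1 (by positivity)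
      hD2 hDe hT3 ?_ ?_ ?_
    · rw [hm'] at key
      rw [← sum_mu_eq g m _ hmg (by omega), ← sum_mu_eq g m _ hmg (by omega)] at key
      push_cast
      unfold SN2 SS2 at key
      exact key
    · intro l
      have a1 := Hup q (2 * l + 1) T hq hq4 (by omega) hT5
      have a2 := Hup (star q) (2 * l + 1) T hq' hq4' (by omega) hT5
      rw [hns, phiQ_star] at a2
      rw [← hQd] at a1
      have e1 : (((2 * l + 1 : ℕ) : ℝ) + 2 * T) = 2 * (l : ℝ) + 1 + 2 * T := by push_cast; ring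
      rw [e1] at a1 a2
      unfold SN2
      calc _ ≤ C1 * T * ((phiQ q : ℝ) / 4) * Real.log (Q * (2 * (l : ℝ) + 1 + 2 * T)) +
          C1 * T * ((phiQ q : ℝ) / 4) * Real.log (Q * (2 * (l : ℝ) + 1 + 2 * T)) := add_le_add a1 a2
        _ = _ := by ring
    · intro l
      have hfin : ∀ (q : ZI) (k : ℕ) (T : ℝ), q ≠ 0 → 1 ≤ k → 1 ≤ T →
          (SS pr q k T : ℝ) ≤ (SN pr q k T : ℝ) := by
        intro q k T hq hk hT
        unfold SS SN
        exact_mod_cast Finset.sum_le_sum fun χ hχ =>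
          Ns_le_NN (fac_props cd pr hprim hq hk hT χ hχ).2.2.1
      have a1 := hfin q (2 * l + 1) T hq (by omega) (by linarith)
      have a2 := hfin (star q) (2 * l + 1) T hq' (by omega) (by linarith)
      unfold SN2 SS2
      linarith
    · intro J hJ1 hJa hJb
      rw [← hκd] at hJa
      obtain ⟨b1, b2⟩ := cond_J CJ D κ h h' Q S T n hCJ hD2 hκ0 hh'1 hh'2 hh1 hQ1 hS1 hSN hT1 hT2
        hXS J hJa hJb
      obtain ⟨c1, c2⟩ := HJ q J T hq hq4 hJ1 (by rw [← hQd]; exact b1) (by rw [← hQd]; exact b2)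
      obtain ⟨d1, d2⟩ := HJ (star q) J T hq' hq4' hJ1 (by rw [hns]; exact b1)
        (by rw [hns]; exact b2)
      rw [hns, phiQ_star] at d2
      rw [← hQd] at c2
      have hN : ∑ l ∈ Finset.range J, SN2 pr q T l =
          ∑ l ∈ Finset.range J, (SN pr q (2 * l + 1) T : ℝ) +
          ∑ l ∈ Finset.range J, (SN pr (star q) (2 * l + 1) T : ℝ) := by
        rw [← Finset.sum_add_distrib]
        rfl
      have hS : ∑ l ∈ Finset.range J, SS2 pr q T l =
          ∑ l ∈ Finset.range J, (SS pr q (2 * l + 1) T : ℝ) +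
          ∑ l ∈ Finset.range J, (SS pr (star q) (2 * l + 1) T : ℝ) := by
        rw [← Finset.sum_add_distrib]
        rfl
      have hN0 : 0 ≤ ∑ l ∈ Finset.range J, SN2 pr q T l :=
        Finset.sum_nonneg fun l _ => by unfold SN2; positivity
      constructor
      · have h3 : (2 - (cH h + ε) + e) * ∑ l ∈ Finset.range J, SN2 pr q T l ≤
            (2 - (cH h' + ε')) * ∑ l ∈ Finset.range J, SN2 pr q T l :=
          mul_le_mul_of_nonneg_right (by linarith) hN0
        refine h3.trans ?_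
        rw [hN, hS, mul_add]
        exact add_le_add c1 d1
      · rw [hN]
        refine le_trans ?_ (add_le_add c2 d2)
        obtain ⟨ℓ, hℓ⟩ : ∃ ℓ : ℝ, ℓ = Real.log (Q * (1 + 2 * (J : ℝ) + T)) := ⟨_, rfl⟩
        rw [← hℓ]
        have hJ0 : (0 : ℝ) ≤ J := Nat.cast_nonneg J
        have hℓ0 : 0 ≤ ℓ := by
          rw [hℓ]
          exact Real.log_nonneg (by nlinarith)
        have hpi := Real.pi_lt_four
        have hpi0 := Real.pi_pos
        have h6 : T / 4 * ℓ ≤ T / Real.pi * ℓ := by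
          refine mul_le_mul_of_nonneg_right ?_ hℓ0
          exact div_le_div_of_nonneg_left hT0.le hpi0 hpi.le
        have h7 : 1 / 2 * (T / 4 * ℓ) ≤ (1 - ε') * (T / Real.pi * ℓ) :=
          mul_le_mul (by linarith) h6 (by positivity) (by linarith)
        have h8 : 1 / 2 * (T / 4 * ℓ) * ((phiQ q : ℝ) * J / 4) ≤
            (1 - ε') * (T / Real.pi * ℓ) * ((phiQ q : ℝ) * J / 4) :=
          mul_le_mul_of_nonneg_right h7 (by positivity)
        linarith
  · rw [← sum_mu g m]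
    push_cast
    have e1 : 2 * (∑ l ∈ Finset.range (m + 1), (mu g m l : ℝ)) * ((phiQ q : ℝ) / 4) * T =
        ∑ l ∈ Finset.range (m + 1), (mu g m l : ℝ) * (2 * (T * ((phiQ q : ℝ) / 4))) := by
      rw [← Finset.sum_mul]
      ring
    rw [e1]
    refine Finset.sum_le_sum fun l hl => ?_
    by_cases hmu : mu g m l = 0
    · rw [hmu]
      simp
    · have := hlowl l hl hmu
      unfold SN2 at this
      exact mul_le_mul_of_nonneg_left this (Nat.cast_nonneg (α := ℝ) (mu g m l))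

end Pool.Agent.Y762.EG
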