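import Pool.Agent.Y762.EG.FinA
import Pool.Agent.Y762.HK.Core

/-!
The number of zeros for one infinity type: bounds from both sides.
-/

set_option autoImplicit false
set_option maxHeartbeats 4000000

open Complex
open H370 (zset mult NN Nd Ns)
open H385 (ZI RQ im1 chiZ phiQ nrm)
open Pool.Agent.H304R3.HK (tc one_le_norm_tc)
open Pool.Agent.Y762.HK (PrimData Fam mem_Fam AllC mem_AllC card_k hk_low' low_final hk_height)
open Pool.Agent.W354.PK (LK aK lck HCk goodK)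
open Pool.Agent.W354 (LogC GoodE)
open Pool.Agent.W354.HW (mu)
open Pool.Agent.W164.RC (two2 two_dvd_star phiQ_star)

namespace Pool.Agent.Y762.EG

/-- lower bound for one infinity type -/
theorem low_k (cd : (q : ZI) → MulChar (RQ q) ℂ → ZI)
    (pr : (q : ZI) → MulChar (RQ q) ℂ → (ZI →* ℂ))
    (hprim : ∀ (q : ZI) (_ : q ≠ 0) (χ : MulChar (RQ q) ℂ), PrimData q χ (cd q χ) (pr q χ)) :
    ∃ C0 : ℝ, 1 ≤ C0 ∧ ∀ (q : ZI) (k : ℕ) (T : ℝ), q ≠ 0 → 4 < nrm q → 1 ≤ k →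
      C0 * (1 + Real.sqrt (Real.log (‖tc q‖ * (k + 1)))) ≤ T →
      T * ((phiQ q : ℝ) / 4) ≤ (SN pr q k T : ℝ) := by
  classical
  obtain ⟨A, hA1, hgood⟩ := goodK
  have hgood' : ∀ (k : ℕ) (q : GaussianInt) (χ : GaussianInt →* ℂ), 1 ≤ k → HCk k q χ →
      GoodE 2 A (lck k ‖tc q‖) (LK k χ) (aK k χ) := fun k q χ hk H => (hgood k q χ hk H).2.2.2
  obtain ⟨C2, hC2, hlowall⟩ := hk_low' cd pr hprim A hA1 hgood'
  obtain ⟨C3, hC3, hlow⟩ := hlowall (1 / 8) (by norm_num)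
  obtain ⟨C0, hC01, hheight⟩ := hk_height (8 + 16 * C3 + 64 * C2)
    (min (1 / 8) (1 / (64 * (C2 + 1)))) (by positivity)
  refine ⟨C0, hC01, ?_⟩
  intro q k T hq hq4 hk hT
  have hk1 : (1 : ℝ) ≤ k := by exact_mod_cast hk
  obtain ⟨hLL, hT1, hlogT, hκT, hlq⟩ := hheight ‖tc q‖ k 1 T (one_le_norm_tc hq) hk1 le_rfl hT
  obtain ⟨ℒ, hℒd⟩ : ∃ ℒ : ℝ, ℒ = Real.log (‖tc q‖ * (k + ((1 : ℕ) : ℝ) + T)) := ⟨_, rfl⟩
  have hℒd' : Real.log (‖tc q‖ * (k + 1 + T)) = ℒ := by rw [hℒd]; push_cast; rfl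
  rw [hℒd'] at hLL hlogT hκT hlq
  have hT0 : 0 < T := by linarith
  have hℒ8 : 8 ≤ ℒ := by linarith
  have hℒ1 : 1 ≤ ℒ := by linarith
  have hℒ0 : 0 < ℒ := by linarith
  obtain ⟨κ, hκd⟩ : ∃ κ : ℝ, κ = 4 * Real.sqrt ℒ := ⟨_, rfl⟩
  rw [← hκd] at hκT
  have hTℒ : T ≤ Real.exp ℒ := by
    calc T = Real.exp (Real.log T) := (Real.exp_log hT0).symm
      _ ≤ _ := Real.exp_le_exp.mpr hlogT
  obtain ⟨p1, p2, p3, p4, p5, p6⟩ := H385.he_param 1 ℒ T κ (by norm_num) hℒ1 hκd hTℒ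
  have hκ0 : 0 ≤ κ := le_trans (by norm_num) p1
  have hκ8 : 8 * κ ≤ T := by
    have : κ ≤ 1 / 8 * T := hκT.trans (mul_le_mul_of_nonneg_right (min_le_left _ _) hT0.le)
    linarith
  have hκC2 : C2 * κ ≤ (1 / 2) / 32 * T := by
    have h1 : κ ≤ 1 / (64 * (C2 + 1)) * T :=
      hκT.trans (mul_le_mul_of_nonneg_right (min_le_right _ _) hT0.le)
    calc C2 * κ ≤ (C2 + 1) * (1 / (64 * (C2 + 1)) * T) := by
          refine mul_le_mul (by linarith) h1 hκ0 (by linarith)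
      _ = (1 / 2) / 32 * T := by
          field_simp
          norm_num
  have hcard : ((Fam q k 1).card : ℝ) = (phiQ q : ℝ) / 4 := by
    rw [fam_one hq, Finset.card_map, card_FQk hq4]
  obtain ⟨-, hφ, -⟩ := H385.fq_finite q hq
  have hφ0 : (0 : ℝ) < phiQ q := by exact_mod_cast hφ
  have hF0 : (0 : ℝ) < ((Fam q k 1).card : ℝ) := by rw [hcard]; positivity
  have h1 := hlow q k 1 T κ ℒ ((Fam q k 1).card : ℝ) hq hk le_rfl hT1 p1 hκ8 hℒd hℒ0 hlq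
    (by linarith) rfl hF0 (by rw [hcard]; push_cast; linarith) p6
  have h2 := low_final C2 (1 / 2) (1 / 8) T κ ℒ ((Fam q k 1).card : ℝ)
    (∑ x ∈ Fam q k 1, (1 / ((Fam q k 1).card : ℝ)) * (NN (LK x.1 (pr q x.2)) T (2 * T) : ℝ))
    hC2 (by norm_num) (by norm_num) hT0 hℒ0 hF0 (by linarith) hκC2 h1
  have e9 : ((Fam q k 1).card : ℝ) * (∑ x ∈ Fam q k 1, (1 / ((Fam q k 1).card : ℝ)) *
      (NN (LK x.1 (pr q x.2)) T (2 * T) : ℝ)) = (SN pr q k T : ℝ) := by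
    rw [← SN_eq pr hq, ← Finset.mul_sum, ← mul_assoc, mul_one_div_cancel hF0.ne', one_mul]
  rw [e9] at h2
  refine le_trans ?_ h2
  rw [hcard]
  refine mul_le_mul_of_nonneg_right ?_ (by positivity)
  have hpi := Real.pi_lt_four
  have hpi0 := Real.pi_pos
  have h6 : 2 * T ≤ T / Real.pi * ℒ := by
    rw [div_mul_eq_mul_div, le_div_iff₀ hpi0]
    nlinarith
  linarith

/-- upper bound for one infinity type -/
theorem up_k (cd : (q : ZI) → MulChar (RQ q) ℂ → ZI)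
    (pr : (q : ZI) → MulChar (RQ q) ℂ → (ZI →* ℂ))
    (hprim : ∀ (q : ZI) (_ : q ≠ 0) (χ : MulChar (RQ q) ℂ), PrimData q χ (cd q χ) (pr q χ)) :
    ∃ C1 : ℝ, 1 ≤ C1 ∧ ∀ (q : ZI) (k : ℕ) (T : ℝ), q ≠ 0 → 4 < nrm q → 1 ≤ k → 3 ≤ T →
      (SN pr q k T : ℝ) ≤ C1 * T * ((phiQ q : ℝ) / 4) * Real.log (‖tc q‖ * (k + 2 * T)) := by
  classical
  obtain ⟨C, hC, hcount⟩ := Pool.Agent.W354.FK.fk_count
  refine ⟨max 1 C, le_max_left _ _, ?_⟩
  intro q k T hq hq4 hk hT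
  have hT0 : 0 < T := by linarith
  have hQ1 : 1 ≤ ‖tc q‖ := one_le_norm_tc hq
  have hk0 : (0 : ℝ) ≤ k := Nat.cast_nonneg k
  have hlog0 : 0 ≤ Real.log (‖tc q‖ * (k + 2 * T)) :=
    Real.log_nonneg (one_le_mul_of_one_le_of_one_le hQ1 (by linarith))
  have h1 : ∀ χ ∈ FQk q k, (NN (LK k (pr q χ)) T (2 * T) : ℝ) ≤
      max 1 C * T * Real.log (‖tc q‖ * (k + 2 * T)) := by
    intro χ hχ
    rw [mem_FQk hq] at hχ
    have hH := (hprim q hq χ).hck hq k hχ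
    have h2 := hcount k _ _ T hk hH hT
    refine h2.trans ?_
    have hc1 : (1 : ℝ) ≤ ‖tc (cd q χ)‖ := one_le_norm_tc hH.q0
    have hcq : ‖tc (cd q χ)‖ ≤ ‖tc q‖ :=
      H385.norm_tc_le_of_dvd _ _ hq (hprim q hq χ).dvd
    have h3 : lck k ‖tc (cd q χ)‖ (2 * T) ≤ Real.log (‖tc q‖ * (k + 2 * T)) := by
      unfold lck
      refine Real.log_le_log (by positivity) ?_
      exact mul_le_mul_of_nonneg_right hcq (by linarith)
    have h4 : C * T ≤ max 1 C * T := mul_le_mul_of_nonneg_right (le_max_right _ _) hT0.le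
    calc C * T * lck k ‖tc (cd q χ)‖ (2 * T) ≤ C * T * Real.log (‖tc q‖ * (k + 2 * T)) :=
          mul_le_mul_of_nonneg_left h3 (by positivity)
      _ ≤ _ := mul_le_mul_of_nonneg_right h4 hlog0
  unfold SN
  push_cast
  refine (Finset.sum_le_sum h1).trans (le_of_eq ?_)
  rw [Finset.sum_const, nsmul_eq_mul, card_FQk hq4]
  ring

theorem SS_le_SN (pr : (q : ZI) → MulChar (RQ q) ℂ → (ZI →* ℂ))
    (h : ∀ (q : ZI) (k : ℕ) (T : ℝ), 1 ≤ T → ∀ χ ∈ FQk q k,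
      Ns (LK k (pr q χ)) T (2 * T) ≤ NN (LK k (pr q χ)) T (2 * T))
    (q : ZI) (k : ℕ) (T : ℝ) (hT : 1 ≤ T) : (SS pr q k T : ℝ) ≤ (SN pr q k T : ℝ) := by
  unfold SS SN
  exact_mod_cast Finset.sum_le_sum fun χ hχ => h q k T hT χ hχ

end Pool.Agent.Y762.EG
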