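import Pool.Agent.Y762.EG.Low
import Pool.Agent.Y762.HP.Fin
import Pool.Agent.W354.FK.Binom
import Pool.Agent.W354.FK.Abel

/-!
Decreasing weights.
-/

set_option autoImplicit false
set_option maxHeartbeats 4000000

open Complex Finset Filter Topology
open H370 (zset mult NN Nd Ns)
open Pool.Agent.Y762 (cH)

namespace Pool.Agent.Y762.EG

theorem Ns_le_NN {F : ℂ → ℂ} {T1 T2 : ℝ} (hfin : (zset F T1 T2).Finite) :
    Ns F T1 T2 ≤ NN F T1 T2 := by
  classical
  unfold Ns NN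
  rw [finsum_mem_eq_finite_toFinset_sum _ hfin]
  have hA : {s : ℂ | s ∈ zset F T1 T2 ∧ s.re = 1 / 2 ∧ mult F s = 1} ⊆ zset F T1 T2 :=
    fun s hs => hs.1
  have hAf := hfin.subset hA
  rw [Set.ncard_eq_toFinset_card _ hAf, Finset.card_eq_sum_ones]
  have h1 : ∑ _x ∈ hAf.toFinset, 1 = ∑ x ∈ hAf.toFinset, mult F x := by
    refine Finset.sum_congr rfl fun x hx => ?_
    rw [Set.Finite.mem_toFinset] at hx
    exact hx.2.2.symm
  rw [h1]
  refine Finset.sum_le_sum_of_subset ?_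
  intro x hx
  rw [Set.Finite.mem_toFinset] at hx ⊢
  exact hA hx

/-- weighted averages -/
theorem weighted2 (w G N : ℕ → ℝ) (c e B X : ℝ) (J1 J2 J3 M : ℕ) (hw : Antitone w)
    (hw0 : ∀ j, 0 ≤ w j) (h13 : J1 ≤ J3) (h32 : J3 ≤ J2) (he : 0 ≤ e)
    (hce : c + e ≤ 1) (hB0 : 0 ≤ B) (hG : ∀ j, 0 ≤ G j) (hN : ∀ j, 0 ≤ N j)
    (hNB : ∀ j, j < M → N j ≤ B) (hM : J2 ≤ M)
    (h1 : ∀ J, J1 ≤ J → J ≤ J2 → (c + e) * ∑ j ∈ range J, N j ≤ ∑ j ∈ range J, G j)
    (h2 : X ≤ ∑ j ∈ range J3, N j) (hw3 : ∀ j, j < J3 → w 0 / 4 ≤ w j)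
    (h4 : J1 * B ≤ e / 8 * X) (h5 : (∑ j ∈ Finset.Ico J2 M, w j) * B ≤ e / 8 * X * w 0) :
    c * ∑ j ∈ range M, w j * N j ≤ ∑ j ∈ range M, w j * G j := by
  have a1 : -(w 0 * (J1 * B)) ≤ ∑ j ∈ range J2, w j * (G j - (c + e) * N j) := by
    refine Pool.Agent.W354.FK.abel_lower w _ J1 J2 (J1 * B) hw hw0 (h13.trans h32)
      (by positivity) ?_ ?_
    · intro J hJ1 hJ2
      rw [Finset.sum_sub_distrib, ← Finset.mul_sum]
      have := h1 J hJ1 hJ2
      linarith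
    · intro J hJ
      rw [Finset.sum_sub_distrib, ← Finset.mul_sum]
      have b1 : 0 ≤ ∑ j ∈ range J, G j := Finset.sum_nonneg fun j _ => hG j
      have b2 : ∑ j ∈ range J, N j ≤ J1 * B := by
        calc ∑ j ∈ range J, N j ≤ ∑ _j ∈ range J, B :=
              Finset.sum_le_sum fun j hj => hNB j (by have := Finset.mem_range.mp hj; omega)
          _ = J * B := by rw [Finset.sum_const, Finset.card_range, nsmul_eq_mul]
          _ ≤ _ := by
            refine mul_le_mul_of_nonneg_right ?_ hB0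
            exact_mod_cast hJ.le
      have b3 : 0 ≤ ∑ j ∈ range J, N j := Finset.sum_nonneg fun j _ => hN j
      have b4 : (c + e) * ∑ j ∈ range J, N j ≤ 1 * ∑ j ∈ range J, N j :=
        mul_le_mul_of_nonneg_right hce b3
      linarith
  have a2 : w 0 / 4 * X ≤ ∑ j ∈ range J2, w j * N j := by
    calc w 0 / 4 * X ≤ w 0 / 4 * ∑ j ∈ range J3, N j :=
          mul_le_mul_of_nonneg_left h2 (by have := hw0 0; linarith)
      _ = ∑ j ∈ range J3, w 0 / 4 * N j := by rw [Finset.mul_sum]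
      _ ≤ ∑ j ∈ range J3, w j * N j := by
          refine Finset.sum_le_sum fun j hj => mul_le_mul_of_nonneg_right ?_ (hN j)
          exact hw3 j (Finset.mem_range.mp hj)
      _ ≤ ∑ j ∈ range J2, w j * N j := by
          refine Finset.sum_le_sum_of_subset_of_nonneg (Finset.range_mono h32) ?_
          exact fun j _ _ => mul_nonneg (hw0 j) (hN j)
  have a2' : e * (w 0 / 4 * X) ≤ e * ∑ j ∈ range J2, w j * N j :=
    mul_le_mul_of_nonneg_left a2 he
  have a3 : ∑ j ∈ Finset.Ico J2 M, w j * N j ≤ (∑ j ∈ Finset.Ico J2 M, w j) * B := by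
    rw [Finset.sum_mul]
    refine Finset.sum_le_sum fun j hj => ?_
    rw [Finset.mem_Ico] at hj
    exact mul_le_mul_of_nonneg_left (hNB j hj.2) (hw0 _)
  have a4 : ∑ j ∈ range M, w j * G j - c * ∑ j ∈ range M, w j * N j =
      ∑ j ∈ range J2, w j * (G j - (c + e) * N j) + e * ∑ j ∈ range J2, w j * N j +
        (∑ j ∈ Finset.Ico J2 M, w j * G j - c * ∑ j ∈ Finset.Ico J2 M, w j * N j) := by
    have e1 : ∀ f : ℕ → ℝ, ∑ j ∈ range M, f j = ∑ j ∈ range J2, f j +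
        ∑ j ∈ Finset.Ico J2 M, f j := fun f => (Finset.sum_range_add_sum_Ico f hM).symm
    rw [e1 (fun j => w j * G j), e1 (fun j => w j * N j)]
    have e2 : ∑ j ∈ range J2, w j * (G j - (c + e) * N j) = ∑ j ∈ range J2, w j * G j -
        (c + e) * ∑ j ∈ range J2, w j * N j := by
      rw [Finset.mul_sum, ← Finset.sum_sub_distrib]
      exact Finset.sum_congr rfl fun j _ => by ring
    rw [e2]
    ring
  have a5 : 0 ≤ ∑ j ∈ Finset.Ico J2 M, w j * G j :=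
    Finset.sum_nonneg fun j _ => mul_nonneg (hw0 j) (hG j)
  have a6 : 0 ≤ ∑ j ∈ Finset.Ico J2 M, w j * N j :=
    Finset.sum_nonneg fun j _ => mul_nonneg (hw0 j) (hN j)
  have a7 : c * ∑ j ∈ Finset.Ico J2 M, w j * N j ≤ 1 * ∑ j ∈ Finset.Ico J2 M, w j * N j :=
    mul_le_mul_of_nonneg_right (by linarith) a6
  have a8 : w 0 * (J1 * B) ≤ w 0 * (e / 8 * X) := mul_le_mul_of_nonneg_left h4 (hw0 0)
  have e9 : e * (w 0 / 4 * X) = 2 * (e / 8 * X * w 0) := by ring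
  have e10 : w 0 * (e / 8 * X) = e / 8 * X * w 0 := by ring
  rw [e9] at a2'
  rw [e10] at a8
  linarith

/-- the tail of a Gaussian sum -/
theorem gauss_tail (S D : ℝ) (J2 M : ℕ) (hS : 1 ≤ S) (hD : 2 ≤ D) (hJ : D * S ≤ J2) :
    ∑ l ∈ Finset.Ico J2 M, Real.exp (-(l : ℝ) ^ 2 / (2 * S ^ 2)) ≤ 2 * S / D := by
  have hS0 : 0 < S := by linarith
  have hD0 : 0 < D := by linarith
  set x : ℝ := D / (2 * S) with hx
  have hx0 : 0 < x := by positivity
  set ρ : ℝ := Real.exp (-x) with hρ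
  have hρ0 : 0 < ρ := Real.exp_pos _
  have hρ1 : ρ < 1 := by
    rw [hρ, Real.exp_lt_one_iff]
    linarith
  have h1 : ∀ l ∈ Finset.Ico J2 M, Real.exp (-(l : ℝ) ^ 2 / (2 * S ^ 2)) ≤ ρ ^ l := by
    intro l hl
    rw [Finset.mem_Ico] at hl
    have hl' : D * S ≤ l := hJ.trans (by exact_mod_cast hl.1)
    have hl0 : (0 : ℝ) ≤ l := Nat.cast_nonneg l
    rw [hρ, ← Real.exp_nat_mul]
    apply Real.exp_le_exp.mpr
    rw [div_le_iff₀ (by positivity), hx]
    have e : (l : ℝ) * -(D / (2 * S)) * (2 * S ^ 2) = -(l * (D * S)) := by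
      field_simp
    rw [e]
    nlinarith
  have h2 : ∑ l ∈ Finset.Ico J2 M, ρ ^ l ≤ ρ ^ J2 * (1 - ρ)⁻¹ := by
    rw [Finset.sum_Ico_eq_sum_range]
    have e : ∀ i ∈ range (M - J2), ρ ^ (J2 + i) = ρ ^ J2 * ρ ^ i := fun i _ => pow_add _ _ _
    rw [Finset.sum_congr rfl e, ← Finset.mul_sum]
    refine mul_le_mul_of_nonneg_left ?_ (by positivity)
    rw [← tsum_geometric_of_lt_one hρ0.le hρ1]
    exact (summable_geometric_of_lt_one hρ0.le hρ1).sum_le_tsum _ (fun i _ => by positivity)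
  have h3 : (1 - ρ)⁻¹ ≤ 1 + 1 / x := by
    have h4 : ρ ≤ 1 / (1 + x) := by
      rw [hρ, Real.exp_neg, ← one_div]
      refine one_div_le_one_div_of_le (by linarith) ?_
      linarith [Real.add_one_le_exp x]
    have h5 : x / (1 + x) ≤ 1 - ρ := by
      have : x / (1 + x) = 1 - 1 / (1 + x) := by field_simp; ring
      rw [this]
      linarith
    calc (1 - ρ)⁻¹ ≤ (x / (1 + x))⁻¹ := inv_anti₀ (by positivity) h5
      _ = 1 + 1 / x := by
        rw [inv_div]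
        field_simp
        ring
  have h4 : ρ ^ J2 ≤ 1 / D := by
    rw [hρ, ← Real.exp_nat_mul]
    have h5 : (J2 : ℝ) * -x ≤ -D := by
      rw [hx]
      have h6 : D * S * (D / (2 * S)) ≤ J2 * (D / (2 * S)) :=
        mul_le_mul_of_nonneg_right hJ (by positivity)
      have h7 : D * S * (D / (2 * S)) = D * D / 2 := by field_simp
      rw [h7] at h6
      nlinarith
    calc Real.exp (J2 * -x) ≤ Real.exp (-D) := Real.exp_le_exp.mpr h5
      _ = 1 / Real.exp D := by rw [Real.exp_neg, one_div]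
      _ ≤ 1 / D := one_div_le_one_div_of_le hD0 (by linarith [Real.add_one_le_exp D])
  have h5 : 1 + 1 / x ≤ 2 * S := by
    rw [hx, one_div_div]
    have : 2 * S / D ≤ S := by
      rw [div_le_iff₀ hD0]
      nlinarith
    linarith
  calc ∑ l ∈ Finset.Ico J2 M, Real.exp (-(l : ℝ) ^ 2 / (2 * S ^ 2)) ≤
      ∑ l ∈ Finset.Ico J2 M, ρ ^ l := Finset.sum_le_sum h1
    _ ≤ ρ ^ J2 * (1 - ρ)⁻¹ := h2
    _ ≤ (1 / D) * (2 * S) := by
        refine mul_le_mul h4 (h3.trans h5) ?_ (by positivity)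
        rw [inv_nonneg]
        linarith
    _ = 2 * S / D := by ring

theorem cH_cont (h : ℝ) (h0 : 0 < h) (h1 : h ≤ 1) : ContinuousAt cH h := by
  have hs2 : 0 < Real.sqrt 2 := Real.sqrt_pos.mpr (by norm_num)
  have hs1 : 1 ≤ Real.sqrt 2 := Real.one_le_sqrt.2 (by norm_num)
  have hx0 : 0 < h / Real.sqrt 2 := by positivity
  have hx1 : h / Real.sqrt 2 < Real.pi := by
    have : h / Real.sqrt 2 ≤ 1 := by
      rw [div_le_one hs2]
      linarith
    linarith [Real.pi_gt_three]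
  have hsin : Real.sin (h / Real.sqrt 2) ≠ 0 := (Real.sin_pos_of_pos_of_lt_pi hx0 hx1).ne'
  have hcot : cH = fun x : ℝ => x / 2 + (Real.cos (x / Real.sqrt 2) /
      Real.sin (x / Real.sqrt 2)) / Real.sqrt 2 := by
    funext x
    unfold cH
    rw [Real.cot_eq_cos_div_sin]
  rw [hcot]
  have hc1 : ContinuousAt (fun x : ℝ => Real.cos (x / Real.sqrt 2)) h := by fun_prop
  have hc2 : ContinuousAt (fun x : ℝ => Real.sin (x / Real.sqrt 2)) h := by fun_prop
  exact (continuousAt_id.div_const 2).add ((hc1.div hc2 hsin).div_const _)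

/-- a slightly smaller exponent -/
theorem exists_smaller (h ε : ℝ) (hh : 1 / 2 < h) (hh1 : h ≤ 1) (hε : 0 < ε) :
    ∃ h' : ℝ, 1 / 2 < h' ∧ h' < h ∧ cH h' ≤ cH h + ε := by
  have hc := cH_cont h (by linarith) hh1
  have h1 : ∀ᶠ x in 𝓝 h, cH x < cH h + ε := hc.eventually (gt_mem_nhds (by linarith))
  have h2 : ∀ᶠ x in 𝓝 h, 1 / 2 < x := lt_mem_nhds hh
  have h3 : ∀ᶠ x in 𝓝[<] h, x < h := self_mem_nhdsWithin
  obtain ⟨x, ⟨h4, h5⟩, h6⟩ := (((h1.filter_mono (nhdsWithin_le_nhds (s := Set.Iio h))).and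
    (h2.filter_mono nhdsWithin_le_nhds)).and h3).exists
  exact ⟨x, h5, h6, h4.le⟩

end Pool.Agent.Y762.EG
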